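import Mathlib

/-!
Bounded formulas over a multiplication table (a list of lists of numbers) are primitive recursive.
-/

namespace Pool.Agent.H.MP_830e61_lc

/-- the entry of a table -/
def entry (L : List (List ℕ)) (i j : ℕ) : ℕ := (L.getD i []).getD j 0

/-- terms -/
inductive Tm
  | var (i : ℕ) | cst (k : ℕ) | len
  | add (a b : Tm) | mul (a b : Tm) | div (a b : Tm) | mod (a b : Tm) | pow (a b : Tm)
  | tab (a b : Tm) | row (a : Tm)

/-- value of a term -/
def Tm.ev (L : List (List ℕ)) (v : List ℕ) : Tm → ℕ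
  | .var i => v.getD i 0
  | .cst k => k
  | .len => L.length
  | .add a b => a.ev L v + b.ev L v
  | .mul a b => a.ev L v * b.ev L v
  | .div a b => a.ev L v / b.ev L v
  | .mod a b => a.ev L v % b.ev L v
  | .pow a b => a.ev L v ^ b.ev L v
  | .tab a b => entry L (a.ev L v) (b.ev L v)
  | .row a => (L.getD (a.ev L v) []).length

/-- bounded formulas -/
inductive Fm
  | lt (a b : Tm) | eq (a b : Tm) | and (a b : Fm) | or (a b : Fm) | not (a : Fm)
  | all (t : Tm) (a : Fm) | ex (t : Tm) (a : Fm)

/-- truth of a formula -/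
def Fm.ev (L : List (List ℕ)) : List ℕ → Fm → Prop
  | v, .lt a b => a.ev L v < b.ev L v
  | v, .eq a b => a.ev L v = b.ev L v
  | v, .and a b => a.ev L v ∧ b.ev L v
  | v, .or a b => a.ev L v ∨ b.ev L v
  | v, .not a => ¬ a.ev L v
  | v, .all t a => ∀ x < t.ev L v, a.ev L (x :: v)
  | v, .ex t a => ∃ x < t.ev L v, a.ev L (x :: v)

theorem primrec_pow : Primrec₂ ((· ^ ·) : ℕ → ℕ → ℕ) := by
  have h : Primrec (fun p : ℕ × ℕ => p.1 ^ p.2) := by
    have h1 : Primrec₂ fun (p : ℕ × ℕ) (k : ℕ) => p.1 ^ k :=
      (Primrec.nat_rec (f := fun _ : ℕ × ℕ => 1) (g := fun (p : ℕ × ℕ) (q : ℕ × ℕ) => q.2 * p.1)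
        (Primrec.const 1)
        (Primrec.nat_mul.comp (Primrec.snd.comp Primrec.snd)
          (Primrec.fst.comp Primrec.fst))).of_eq fun p k => by
        induction k with
        | zero => rfl
        | succ k ih => simp only [pow_succ] at *; rw [← ih]
    exact h1.comp Primrec.id Primrec.snd
  exact h

theorem Tm.primrec (t : Tm) :
    Primrec fun p : List (List ℕ) × List ℕ => t.ev p.1 p.2 := by
  induction t with
  | var i => exact (Primrec.list_getD 0).comp Primrec.snd (Primrec.const i)
  | cst k => exact Primrec.const k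
  | len => exact Primrec.list_length.comp Primrec.fst
  | add a b iha ihb => exact Primrec.nat_add.comp iha ihb
  | mul a b iha ihb => exact Primrec.nat_mul.comp iha ihb
  | div a b iha ihb => exact Primrec.nat_div.comp iha ihb
  | mod a b iha ihb => exact Primrec.nat_mod.comp iha ihb
  | pow a b iha ihb => exact primrec_pow.comp iha ihb
  | tab a b iha ihb =>
    exact (Primrec.list_getD 0).comp ((Primrec.list_getD []).comp Primrec.fst iha) ihb
  | row a iha => exact Primrec.list_length.comp ((Primrec.list_getD []).comp Primrec.fst iha)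

section

variable {α : Type*} [Primcodable α]

theorem pp_all {R : ℕ → α → Prop} (hR : PrimrecRel R) {f : α → ℕ} (hf : Primrec f) :
    PrimrecPred fun a => ∀ x < f a, R x a := by
  have h1 : PrimrecRel fun (l : List ℕ) a => ∀ x ∈ l, R x a := hR.forall_mem_list
  refine (h1.comp (Primrec.list_range.comp hf) Primrec.id).of_eq ?_
  intro a; simp

theorem pp_ex {R : ℕ → α → Prop} (hR : PrimrecRel R) {f : α → ℕ} (hf : Primrec f) :
    PrimrecPred fun a => ∃ x < f a, R x a := by
  have h1 : PrimrecRel fun (l : List ℕ) a => ∃ x ∈ l, R x a := hR.exists_mem_list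
  refine (h1.comp (Primrec.list_range.comp hf) Primrec.id).of_eq ?_
  intro a; simp

end

theorem Fm.primrec (φ : Fm) :
    PrimrecPred fun p : List (List ℕ) × List ℕ => φ.ev p.1 p.2 := by
  induction φ with
  | lt a b => exact Primrec.nat_lt.comp a.primrec b.primrec
  | eq a b => exact Primrec.eq.comp a.primrec b.primrec
  | and a b iha ihb => exact iha.and ihb
  | or a b iha ihb => exact iha.or ihb
  | not a iha => exact iha.not
  | all t a ih =>
    have h : PrimrecRel fun (x : ℕ) (p : List (List ℕ) × List ℕ) => a.ev p.1 (x :: p.2) :=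
      ih.comp (f := fun q : ℕ × (List (List ℕ) × List ℕ) => (q.2.1, q.1 :: q.2.2))
        (Primrec.pair (Primrec.fst.comp Primrec.snd)
          (Primrec.list_cons.comp Primrec.fst (Primrec.snd.comp Primrec.snd)))
    exact pp_all h t.primrec
  | ex t a ih =>
    have h : PrimrecRel fun (x : ℕ) (p : List (List ℕ) × List ℕ) => a.ev p.1 (x :: p.2) :=
      ih.comp (f := fun q : ℕ × (List (List ℕ) × List ℕ) => (q.2.1, q.1 :: q.2.2))
        (Primrec.pair (Primrec.fst.comp Primrec.snd)
          (Primrec.list_cons.comp Primrec.fst (Primrec.snd.comp Primrec.snd)))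
    exact pp_ex h t.primrec

/-- a closed bounded formula defines a computable predicate -/
theorem Fm.computable (φ : Fm) : ComputablePred fun L : List (List ℕ) => φ.ev L [] := by
  have h : PrimrecPred fun L : List (List ℕ) => φ.ev L [] :=
    φ.primrec.comp (f := fun L => (L, [])) (Primrec.pair Primrec.id (Primrec.const []))
  obtain ⟨h1, h2⟩ := h
  exact ⟨h1, h2.to_comp⟩

end Pool.Agent.H.MP_830e61_lc
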