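import Pool.Agent.H.MP_830e61_lc.Reg
import Pool.Agent.H.MP_830e61_lc.Fml

/-!
Arithmetic form of membership in `R_V` and `S(R_V)`.
-/

namespace Pool.Agent.H.MP_830e61_lc

/-- the identity of the variety for an operation on `{0, ..., m-1}` -/
def IdA (V : BandVar) (m : ℕ) (o : ℕ → ℕ → ℕ) : Prop :=
  match V with
  | .rightRegular => ∀ e < m, ∀ f < m, o e e = e → o f f = f → o (o e f) e = o f e
  | .leftRegular => ∀ e < m, ∀ f < m, o e e = e → o f f = f → o (o e f) e = o e f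
  | .regular => ∀ e < m, ∀ f < m, ∀ g < m, o e e = e → o f f = f → o g g = g →
      o (o (o (o e f) e) g) e = o (o (o e f) g) e

/-- `o` is an operation on `{0, ..., m-1}` making it a member of `R_V` -/
def RVA (V : BandVar) (m : ℕ) (o : ℕ → ℕ → ℕ) : Prop :=
  0 < m ∧ (∀ i < m, ∀ j < m, o i j < m) ∧
  (∀ i < m, ∀ j < m, ∀ k < m, o (o i j) k = o i (o j k)) ∧
  (∀ i < m, ∃ x < m, o (o i x) i = i) ∧
  (∀ e < m, ∀ f < m, o e e = e → o f f = f → o (o e f) (o e f) = o e f) ∧ IdA V m o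

/-- a copy of `Fin m` without algebraic structure -/
structure FinT (m : ℕ) where
  val : ℕ
  lt : val < m

/-- the bijection with `Fin m` -/
def finT (m : ℕ) : Fin m ≃ FinT m where
  toFun i := ⟨i.1, i.2⟩
  invFun i := ⟨i.1, i.2⟩
  left_inv _ := rfl
  right_inv _ := rfl

theorem FinT.ext' {m : ℕ} {a b : FinT m} (h : a.val = b.val) : a = b := by
  cases a; cases b; cases h; rfl

/-- the semigroup on `{0, ..., m-1}` -/
@[reducible] def finSg (m : ℕ) (o : ℕ → ℕ → ℕ) (h1 : ∀ i < m, ∀ j < m, o i j < m)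
    (h2 : ∀ i < m, ∀ j < m, ∀ k < m, o (o i j) k = o i (o j k)) : Semigroup (FinT m) where
  mul i j := ⟨o i.1 j.1, h1 _ i.2 _ j.2⟩
  mul_assoc i j k := FinT.ext' (h2 _ i.2 _ j.2 _ k.2)

theorem RVA_iff (V : BandVar) {m : ℕ} {o : ℕ → ℕ → ℕ} {T : Type} [Semigroup T] (e : Fin m ≃ T)
    (h : ∀ i j : Fin m, o i.1 j.1 = (e.symm (e i * e j)).val) : RVA V m o ↔ RV V T inferInstance := by
  have hlt : ∀ i < m, ∀ j < m, o i j < m := by
    intro i hi j hj
    have := h ⟨i, hi⟩ ⟨j, hj⟩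
    simp only at this
    rw [this]; exact (e.symm _).2
  have hm : ∀ i j : Fin m, e ⟨o i.1 j.1, hlt _ i.2 _ j.2⟩ = e i * e j := by
    intro i j
    have : (⟨o i.1 j.1, hlt _ i.2 _ j.2⟩ : Fin m) = e.symm (e i * e j) := Fin.ext (h i j)
    rw [this, Equiv.apply_symm_apply]
  have hinj : ∀ i j : Fin m, e i = e j ↔ i.1 = j.1 := by
    intro i j
    rw [e.apply_eq_iff_eq, Fin.ext_iff]
  have hsurj := e.surjective
  have hassoc : ∀ i < m, ∀ j < m, ∀ k < m, o (o i j) k = o i (o j k) := by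
    intro i hi j hj k hk
    have := mul_assoc (e ⟨i, hi⟩) (e ⟨j, hj⟩) (e ⟨k, hk⟩)
    rw [← hm, ← hm, ← hm, ← hm, hinj] at this
    exact this
  have hId : IdA V m o ↔ V.Idem T := by
    cases V with
    | rightRegular =>
      constructor
      · intro h1 a b ha hb
        obtain ⟨i, rfl⟩ := hsurj a
        obtain ⟨j, rfl⟩ := hsurj b
        rw [← hm, hinj] at ha hb
        rw [← hm, ← hm, ← hm, hinj]
        exact h1 _ i.2 _ j.2 ha hb
      · intro h1 i hi j hj ha hb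
        have h2 := h1 (e ⟨i, hi⟩) (e ⟨j, hj⟩) (by rw [← hm, hinj]; exact ha)
          (by rw [← hm, hinj]; exact hb)
        rw [← hm, ← hm, ← hm, hinj] at h2
        exact h2
    | leftRegular =>
      constructor
      · intro h1 a b ha hb
        obtain ⟨i, rfl⟩ := hsurj a
        obtain ⟨j, rfl⟩ := hsurj b
        rw [← hm, hinj] at ha hb
        rw [← hm, ← hm, hinj]
        exact h1 _ i.2 _ j.2 ha hb
      · intro h1 i hi j hj ha hb
        have h2 := h1 (e ⟨i, hi⟩) (e ⟨j, hj⟩) (by rw [← hm, hinj]; exact ha)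
          (by rw [← hm, hinj]; exact hb)
        rw [← hm, ← hm, hinj] at h2
        exact h2
    | regular =>
      constructor
      · intro h1 a b c ha hb hc
        obtain ⟨i, rfl⟩ := hsurj a
        obtain ⟨j, rfl⟩ := hsurj b
        obtain ⟨k, rfl⟩ := hsurj c
        rw [← hm, hinj] at ha hb hc
        rw [← hm, ← hm, ← hm, ← hm, ← hm, ← hm, hinj]
        exact h1 _ i.2 _ j.2 _ k.2 ha hb hc
      · intro h1 i hi j hj k hk ha hb hc
        have h2 := h1 (e ⟨i, hi⟩) (e ⟨j, hj⟩) (e ⟨k, hk⟩) (by rw [← hm, hinj]; exact ha)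
          (by rw [← hm, hinj]; exact hb) (by rw [← hm, hinj]; exact hc)
        rw [← hm, ← hm, ← hm, ← hm, ← hm, ← hm, hinj] at h2
        exact h2
  constructor
  · rintro ⟨h0, -, -, h3, h4, h5⟩
    refine ⟨Finite.of_equiv _ e, ⟨e ⟨0, h0⟩⟩, ?_, ?_, hId.1 h5⟩
    · intro a
      obtain ⟨i, rfl⟩ := hsurj a
      obtain ⟨x, hx, hx2⟩ := h3 _ i.2
      refine ⟨e ⟨x, hx⟩, ?_⟩
      rw [← hm, ← hm, hinj]
      exact hx2
    · intro a b ha hb
      obtain ⟨i, rfl⟩ := hsurj a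
      obtain ⟨j, rfl⟩ := hsurj b
      rw [← hm, hinj] at ha hb
      rw [← hm, ← hm, hinj]
      exact h4 _ i.2 _ j.2 ha hb
  · rintro ⟨-, ⟨a0⟩, h3, h4, h5⟩
    refine ⟨Fin.pos (e.symm a0), hlt, hassoc, ?_, ?_, hId.2 h5⟩
    · intro i hi
      obtain ⟨x, hx⟩ := h3 (e ⟨i, hi⟩)
      obtain ⟨x, rfl⟩ := hsurj x
      rw [← hm, ← hm, hinj] at hx
      exact ⟨x.1, x.2, hx⟩
    · intro i hi j hj ha hb
      have h2 := h4 (e ⟨i, hi⟩) (e ⟨j, hj⟩) (by rw [← hm, hinj]; exact ha)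
        (by rw [← hm, hinj]; exact hb)
      rw [← hm, ← hm, hinj] at h2
      exact h2

/-- digits -/
def dig (m c k : ℕ) : ℕ := c / m ^ k % m

theorem exists_dig {m : ℕ} (hm : 0 < m) (k : ℕ) (f : ℕ → ℕ) (hf : ∀ i < k, f i < m) :
    ∃ c < m ^ k, ∀ i < k, dig m c i = f i := by
  induction k with
  | zero => exact ⟨0, by simp, fun i hi => absurd hi (Nat.not_lt_zero _)⟩
  | succ k ih =>
    obtain ⟨c, hc, hc2⟩ := ih fun i hi => hf i (Nat.lt_succ_of_lt hi)
    have hfk := hf k (Nat.lt_succ_self k)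
    refine ⟨c + f k * m ^ k, ?_, ?_⟩
    · rw [pow_succ]
      calc c + f k * m ^ k < m ^ k + f k * m ^ k := Nat.add_lt_add_right hc _
        _ = (f k + 1) * m ^ k := by ring
        _ ≤ m * m ^ k := Nat.mul_le_mul_right _ hfk
        _ = m ^ k * m := Nat.mul_comm _ _
    · intro i hi
      unfold dig at *
      rcases Nat.lt_succ_iff_lt_or_eq.1 hi with h | h
      · rw [← hc2 i h]
        obtain ⟨d, rfl⟩ := Nat.exists_eq_add_of_lt h
        have e1 : f (i + d + 1) * m ^ (i + d + 1) = m ^ i * (m * (f (i + d + 1) * m ^ d)) := by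
          ring
        rw [e1, Nat.add_mul_div_left _ _ (Nat.pow_pos hm), Nat.add_mul_mod_self_left]
      · rw [h, Nat.add_mul_div_right _ _ (Nat.pow_pos hm), Nat.div_eq_of_lt hc, Nat.zero_add,
          Nat.mod_eq_of_lt hfk]

/-- `{0, ..., n-1}` with operation `t` embeds in a member of `R_V` with `m` elements -/
def EmbA (V : BandVar) (n : ℕ) (t : ℕ → ℕ → ℕ) (m c d : ℕ) : Prop :=
  RVA V m (fun i j => dig m c (i * m + j)) ∧
  (∀ i < n, ∀ j < n, dig m d (t i j) = dig m c (dig m d i * m + dig m d j)) ∧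
  (∀ i < n, ∀ j < n, dig m d i = dig m d j → i = j)

theorem embA_of {V : BandVar} {n : ℕ} {t : ℕ → ℕ → ℕ} (htn : ∀ i < n, ∀ j < n, t i j < n)
    {U : Type} [Semigroup U]
    (hU : RV V U inferInstance) (f : ℕ → U)
    (hf : ∀ i < n, ∀ j < n, f (t i j) = f i * f j)
    (hinj : ∀ i < n, ∀ j < n, f i = f j → i = j) :
    ∃ c < Nat.card U ^ (Nat.card U * Nat.card U), ∃ d < Nat.card U ^ n,
      EmbA V n t (Nat.card U) c d := by
  obtain ⟨hfin, hne, h3⟩ := hU
  set m := Nat.card U with hmdef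
  have hm : 0 < m := Nat.card_pos
  let e : Fin m ≃ U := (Finite.equivFin U).symm
  let r : ℕ → Fin m := fun i => ⟨i % m, Nat.mod_lt _ hm⟩
  have hr : ∀ i : Fin m, r i.1 = i := fun i => Fin.ext (Nat.mod_eq_of_lt i.2)
  let o : ℕ → ℕ → ℕ := fun i j => (e.symm (e (r i) * e (r j))).val
  have ho : ∀ i j : Fin m, o i.1 j.1 = (e.symm (e i * e j)).val := by
    intro i j
    show (e.symm (e (r i.1) * e (r j.1))).val = _
    rw [hr, hr]
  have hRVA : RVA V m o := (RVA_iff V e ho).2 ⟨hfin, hne, h3⟩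
  obtain ⟨c, hc, hc2⟩ := exists_dig hm (m * m) (fun k => o (k / m) (k % m)) (by
    intro i _; exact (e.symm _).2)
  have hidx : ∀ i < m, ∀ j < m, i * m + j < m * m := by
    intro i hi j hj
    calc i * m + j < i * m + m := Nat.add_lt_add_left hj _
      _ = (i + 1) * m := by ring
      _ ≤ m * m := Nat.mul_le_mul_right m hi
  have hc3 : ∀ i < m, ∀ j < m, dig m c (i * m + j) = o i j := by
    intro i hi j hj
    rw [hc2 _ (hidx i hi j hj)]
    have e1 : (i * m + j) / m = i := by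
      rw [Nat.mul_comm, Nat.mul_add_div hm, Nat.div_eq_of_lt hj, Nat.add_zero]
    have e2 : (i * m + j) % m = j := by
      rw [Nat.mul_comm, Nat.mul_add_mod, Nat.mod_eq_of_lt hj]
    rw [e1, e2]
  obtain ⟨d, hd, hd2⟩ := exists_dig hm n (fun i => (e.symm (f i)).val)
    (fun i _ => (e.symm _).2)
  refine ⟨c, hc, d, hd, ?_, ?_, ?_⟩
  · refine (RVA_iff V e ?_).2 ⟨hfin, hne, h3⟩
    intro i j
    show dig m c (i.1 * m + j.1) = _
    rw [hc3 _ i.2 _ j.2]; exact ho i j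
  · intro i hi j hj
    rw [hd2 _ hi, hd2 _ hj, hd2 _ (htn i hi j hj), hc3 _ (e.symm (f i)).2 _ (e.symm (f j)).2]
    rw [ho, Equiv.apply_symm_apply, Equiv.apply_symm_apply, hf i hi j hj]
  · intro i hi j hj h
    rw [hd2 _ hi, hd2 _ hj] at h
    exact hinj i hi j hj (e.symm.injective (Fin.ext h))

theorem of_embA {V : BandVar} {n : ℕ} {t : ℕ → ℕ → ℕ} {m c d : ℕ} (h : EmbA V n t m c d) :
    ∃ (U : Type) (_ : Semigroup U), RV V U inferInstance ∧ ∃ f : ℕ → U,
      (∀ i < n, ∀ j < n, f (t i j) = f i * f j) ∧ (∀ i < n, ∀ j < n, f i = f j → i = j) := by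
  obtain ⟨hR, h2, h3⟩ := h
  have hR' := hR
  obtain ⟨hm, hlt, hassoc, -⟩ := hR'
  letI := finSg m (fun i j => dig m c (i * m + j)) hlt hassoc
  refine ⟨FinT m, inferInstance, (RVA_iff V (finT m) (fun i j => rfl)).1 hR,
    fun i => ⟨dig m d i, Nat.mod_lt _ hm⟩, ?_, ?_⟩
  · intro i hi j hj
    apply FinT.ext'
    exact h2 i hi j hj
  · intro i hi j hj hh
    exact h3 i hi j hj (congrArg FinT.val hh)

end Pool.Agent.H.MP_830e61_lc
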