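import Pool.Agent.H.MP_830e61_lc.Trunc

/-!
Cardinality bounds and the embedding theorem for right regular bands of idempotents.
-/

namespace Pool.Agent.H.MP_830e61_lc

universe u

section Card

variable {S : Type*} [Semigroup S] {T : Type*} [Monoid T] (I : InvFun T) (hc : IdemClosed T)
  (hr : IdemRR T) (φ : S →ₙ* T)

include hr hc in
theorem exists_nodup {b : T} (hb : b ∈ Bm I φ) :
    ∃ l : List S, l.Nodup ∧ b = (l.map fun s => I.q (φ s)).prod := by
  unfold Bm at hb
  induction hb using Submonoid.closure_induction_left with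
  | one => exact ⟨[], List.nodup_nil, rfl⟩
  | mul_left x hx y hy ih =>
    obtain ⟨s, rfl⟩ := hx
    obtain ⟨l, hl, rfl⟩ := ih
    by_cases hs : s ∈ l
    · obtain ⟨l1, l2, rfl⟩ := List.append_of_mem hs
      refine ⟨l1 ++ s :: l2, hl, ?_⟩
      have hp : (l1.map fun s => I.q (φ s)).prod ∈ Bm I φ := by
        apply Submonoid.list_prod_mem
        intro x hx
        rw [List.mem_map] at hx
        obtain ⟨t, _, rfl⟩ := hx
        exact q_mem I φ t
      have hpi := B_idem I hc φ hp
      have h := hr _ _ (q_idem I (φ s)) hpi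
      rw [List.map_append, List.prod_append, List.map_cons, List.prod_cons]
      rw [← mul_assoc, ← mul_assoc, h, mul_assoc]
    · exact ⟨s :: l, List.nodup_cons.2 ⟨hs, hl⟩, by simp⟩

variable [Finite S]

include hr hc in
theorem card_B : (Bm I φ : Set T).Finite ∧
    Nat.card (Bm I φ) ≤ (Nat.card S + 1) ^ Nat.card S := by
  classical
  haveI := Fintype.ofFinite S
  let F : List.Vector (Option S) (Nat.card S) → T := fun v =>
    (v.toList.map fun o => o.elim 1 fun s => I.q (φ s)).prod
  have hsub : (Bm I φ : Set T) ⊆ Set.range F := by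
    intro b hb
    obtain ⟨l, hl, rfl⟩ := exists_nodup I hc hr φ hb
    have hlen : l.length ≤ Nat.card S := by
      rw [Nat.card_eq_fintype_card]
      exact hl.length_le_card
    have hlen2 : (l.map some ++ List.replicate (Nat.card S - l.length) none).length
        = Nat.card S := by
      rw [List.length_append, List.length_map, List.length_replicate]
      omega
    refine ⟨⟨l.map some ++ List.replicate (Nat.card S - l.length) none, hlen2⟩, ?_⟩
    show ((l.map some ++ List.replicate (Nat.card S - l.length) none).map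
      fun o : Option S => o.elim 1 fun s => I.q (φ s)).prod = _
    simp [List.map_append, List.map_map, Function.comp_def]
  have hfin : (Set.range F).Finite := Set.finite_range F
  refine ⟨hfin.subset hsub, ?_⟩
  calc Nat.card (Bm I φ) = (Bm I φ : Set T).ncard := rfl
    _ ≤ (Set.range F).ncard := Set.ncard_le_ncard hsub hfin
    _ ≤ Nat.card (List.Vector (Option S) (Nat.card S)) := by
        rw [← Set.image_univ]
        refine (Set.ncard_image_le Set.finite_univ).trans ?_
        rw [Set.ncard_univ]
    _ = (Nat.card S + 1) ^ Nat.card S := by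
        rw [Nat.card_eq_fintype_card, card_vector, Fintype.card_option, Nat.card_eq_fintype_card]

include hr hc in
theorem card_Y : (Yset I φ).Finite ∧
    Nat.card (Yset I φ) ≤ (Nat.card S + 1) * (Nat.card S + 1) ^ Nat.card S := by
  classical
  obtain ⟨hB, hBc⟩ := card_B I hc hr φ
  haveI : Finite (Bm I φ) := hB
  haveI := Fintype.ofFinite S
  let F : Option S × Bm I φ → T := fun p => (p.1.elim 1 φ) * p.2.1
  have hsub : Yset I φ ⊆ Set.range F := by
    rintro y (hy | ⟨s, b, hb, rfl⟩)
    · exact ⟨(none, ⟨y, hy⟩), by simp [F]⟩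
    · exact ⟨(some s, ⟨b, hb⟩), by simp [F]⟩
  have hfin : (Set.range F).Finite := Set.finite_range F
  refine ⟨hfin.subset hsub, ?_⟩
  calc Nat.card (Yset I φ) = (Yset I φ).ncard := rfl
    _ ≤ (Set.range F).ncard := Set.ncard_le_ncard hsub hfin
    _ ≤ Nat.card (Option S × Bm I φ) := by
        rw [← Set.image_univ]
        refine (Set.ncard_image_le Set.finite_univ).trans ?_
        rw [Set.ncard_univ]
    _ = (Nat.card S + 1) * Nat.card (Bm I φ) := by
        rw [Nat.card_prod]
        congr 1
        rw [Nat.card_eq_fintype_card, Fintype.card_option, Nat.card_eq_fintype_card]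
    _ ≤ _ := Nat.mul_le_mul_left _ hBc

end Card

/-- the bound -/
def bd (n : ℕ) : ℕ := ((n + 1) * (n + 1) ^ n + 1) ^ ((n + 1) * (n + 1) ^ n)

theorem rr_monoid {S : Type*} [Semigroup S] [Finite S] {T : Type u} [Monoid T]
    (hreg : Regular T) (hc : IdemClosed T) (hr : IdemRR T) (φ : S →ₙ* T) :
    ∃ (T' : Type u) (_ : Semigroup T'), Finite T' ∧ Nat.card T' ≤ bd (Nat.card S) ∧
      Regular T' ∧ IdemClosed T' ∧ IdemRR T' ∧
      ∃ ψ : S →ₙ* T', ∀ u v, ψ u = ψ v ↔ φ u = φ v := by
  obtain ⟨I⟩ := exists_invFun hreg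
  obtain ⟨hY, hYc⟩ := card_Y I hc hr φ
  haveI : Finite (Yset I φ) := hY
  have hQc := Qs_closed I hc hr φ
  have hQr := Qs_RR I hc hr φ
  haveI : Finite (PMap (Yset I φ)) := inferInstanceAs (Finite (Yset I φ → Option (Yset I φ)))
  let R := regSub hQc
  refine ⟨R, inferInstance, inferInstance, ?_, regSub_regular hQc, sub_idemClosed hQc R,
    sub_idemRR hQr R, ?_⟩
  · have h1 : Nat.card R ≤ Nat.card (PMap (Yset I φ)) := by
      apply Nat.card_le_card_of_injective (fun r : R => (r.1.1 : PMap (Yset I φ)))
      intro a b h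
      exact Subtype.ext (Subtype.ext h)
    have h2 : Nat.card (PMap (Yset I φ)) =
        (Nat.card (Yset I φ) + 1) ^ Nat.card (Yset I φ) := by
      show Nat.card (Yset I φ → Option (Yset I φ)) = _
      classical
      haveI := Fintype.ofFinite (Yset I φ)
      simp only [Nat.card_eq_fintype_card, Fintype.card_pi, Fintype.card_option,
        Finset.prod_const, Finset.card_univ]
    rw [h2] at h1
    refine h1.trans ?_
    unfold bd
    exact (Nat.pow_le_pow_left (Nat.succ_le_succ hYc) _).trans
      (Nat.pow_le_pow_right (Nat.succ_pos _) hYc)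
  · refine ⟨⟨fun u => ⟨lam I φ u, mu I hr φ u, lam_mu_lam I hr φ u⟩, ?_⟩, ?_⟩
    · intro u v
      apply Subtype.ext
      exact lam_mul I φ u v
    · intro u v
      rw [← lam_inj I φ u v]
      constructor
      · intro h
        exact congrArg Subtype.val h
      · intro h
        exact Subtype.ext h

/-! ### adjoining an identity -/

section One

variable {T : Type*} [Semigroup T]

theorem withOne_idem {e : WithOne T} (he : e * e = e) : e = 1 ∨ ∃ e0 : T, e0 * e0 = e0 ∧ e = e0 := by
  induction e with
  | one => exact Or.inl rfl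
  | coe a => exact Or.inr ⟨a, by exact_mod_cast he, rfl⟩

theorem withOne_regular (h : Regular T) : Regular (WithOne T) := by
  intro a
  induction a with
  | one => exact ⟨1, by simp⟩
  | coe a =>
    obtain ⟨x, hx⟩ := h a
    exact ⟨x, by exact_mod_cast hx⟩

theorem withOne_closed (h : IdemClosed T) : IdemClosed (WithOne T) := by
  intro e f he hf
  rcases withOne_idem he with rfl | ⟨e0, he0, rfl⟩
  · simpa using hf
  rcases withOne_idem hf with rfl | ⟨f0, hf0, rfl⟩
  · simpa using he
  exact_mod_cast h e0 f0 he0 hf0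

theorem withOne_RR (h : IdemRR T) : IdemRR (WithOne T) := by
  intro e f he hf
  rcases withOne_idem he with rfl | ⟨e0, he0, rfl⟩
  · simp
  rcases withOne_idem hf with rfl | ⟨f0, hf0, rfl⟩
  · simpa using he
  exact_mod_cast h e0 f0 he0 hf0

end One

/-- **Right regular case.** -/
theorem rr_embed {S : Type*} [Semigroup S] [Finite S] {T : Type u} [Semigroup T]
    (hreg : Regular T) (hc : IdemClosed T) (hr : IdemRR T) (φ : S →ₙ* T) :
    ∃ (T' : Type u) (_ : Semigroup T'), Finite T' ∧ Nat.card T' ≤ bd (Nat.card S) ∧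
      Regular T' ∧ IdemClosed T' ∧ IdemRR T' ∧
      ∃ ψ : S →ₙ* T', ∀ u v, ψ u = ψ v ↔ φ u = φ v := by
  obtain ⟨T', i, h1, h2, h3, h4, h5, ψ, h6⟩ :=
    rr_monoid (withOne_regular hreg) (withOne_closed hc) (withOne_RR hr)
      (WithOne.coeMulHom.comp φ)
  refine ⟨T', i, h1, h2, h3, h4, h5, ψ, ?_⟩
  intro u v
  rw [h6]
  show ((φ u : WithOne T) = (φ v : WithOne T)) ↔ _
  exact WithOne.coe_inj

end Pool.Agent.H.MP_830e61_lc
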