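import Pool.Agent.H.MP_830e61_lc.Bound

/-!
The left regular case (by duality) and the case of regular bands (subdirect products).
-/

namespace Pool.Agent.H.MP_830e61_lc

universe u

open MulOpposite

section Op

variable {T : Type*} [Semigroup T]

theorem op_regular (h : Regular T) : Regular Tᵐᵒᵖ := by
  intro a
  obtain ⟨x, hx⟩ := h (unop a)
  refine ⟨op x, ?_⟩
  apply unop_injective
  simpa [mul_assoc] using hx

theorem op_closed (h : IdemClosed T) : IdemClosed Tᵐᵒᵖ := by
  intro e f he hf
  have he' : unop e * unop e = unop e := congrArg unop he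
  have hf' : unop f * unop f = unop f := congrArg unop hf
  apply unop_injective
  simpa using h _ _ hf' he'

theorem op_RR (h : IdemLR T) : IdemRR Tᵐᵒᵖ := by
  intro e f he hf
  have he' : unop e * unop e = unop e := congrArg unop he
  have hf' : unop f * unop f = unop f := congrArg unop hf
  apply unop_injective
  simpa [mul_assoc] using h _ _ he' hf'

theorem op_LR (h : IdemRR T) : IdemLR Tᵐᵒᵖ := by
  intro e f he hf
  have he' : unop e * unop e = unop e := congrArg unop he
  have hf' : unop f * unop f = unop f := congrArg unop hf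
  apply unop_injective
  simpa [mul_assoc] using h _ _ he' hf'

theorem op_Reg (h : IdemReg T) : IdemReg Tᵐᵒᵖ := by
  intro e f g he hf hg
  have he' : unop e * unop e = unop e := congrArg unop he
  have hf' : unop f * unop f = unop f := congrArg unop hf
  have hg' : unop g * unop g = unop g := congrArg unop hg
  apply unop_injective
  simpa [mul_assoc] using h _ _ _ he' hg' hf'

theorem RR_Reg (hc : IdemClosed T) (h : IdemRR T) : IdemReg T := by
  intro e f g he hf hg
  have h1 := h e f he hf
  have h2 := h e g he hg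
  have h3 := h e (f * g) he (hc f g hf hg)
  calc e * f * e * g * e = (e * f * e) * g * e := rfl
    _ = f * (e * g * e) := by rw [h1]; simp only [mul_assoc]
    _ = f * g * e := by rw [h2, mul_assoc]
    _ = e * (f * g) * e := h3.symm
    _ = e * f * g * e := by simp only [mul_assoc]

theorem LR_Reg (hc : IdemClosed T) (h : IdemLR T) : IdemReg T := by
  intro e f g he hf hg
  have h1 := h e f he hf
  have h2 := h e g he hg
  have h3 := h e (f * g) he (hc f g hf hg)
  calc e * f * e * g * e = (e * f * e) * g * e := rfl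
    _ = e * f * g * e := by rw [h1]

end Op

/-- the dual of a homomorphism from an opposite semigroup -/
def dualHom {S T : Type*} [Semigroup S] [Semigroup T] (ψ : Sᵐᵒᵖ →ₙ* T) : S →ₙ* Tᵐᵒᵖ where
  toFun s := op (ψ (op s))
  map_mul' a b := by
    apply unop_injective
    show ψ (op (a * b)) = ψ (op b) * ψ (op a)
    rw [← map_mul]; rfl

theorem lr_embed {S : Type*} [Semigroup S] [Finite S] {T : Type u} [Semigroup T]
    (hreg : Regular T) (hc : IdemClosed T) (hr : IdemLR T) (φ : S →ₙ* T) :
    ∃ (T' : Type u) (_ : Semigroup T'), Finite T' ∧ Nat.card T' ≤ bd (Nat.card S) ∧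
      Regular T' ∧ IdemClosed T' ∧ IdemLR T' ∧
      ∃ ψ : S →ₙ* T', ∀ u v, ψ u = ψ v ↔ φ u = φ v := by
  have hfin : Finite Sᵐᵒᵖ := Finite.of_equiv S opEquiv
  obtain ⟨T', i, h1, h2, h3, h4, h5, ψ, h6⟩ :=
    rr_embed (op_regular hreg) (op_closed hc) (op_RR hr) (MulHom.op φ)
  have hfin2 : Finite T'ᵐᵒᵖ := Finite.of_equiv T' opEquiv
  refine ⟨T'ᵐᵒᵖ, inferInstance, hfin2, ?_, op_regular h3, op_closed h4, op_LR h5,
    dualHom ψ, ?_⟩
  · have e1 : Nat.card T'ᵐᵒᵖ = Nat.card T' := Nat.card_congr opEquiv.symm
    have e2 : Nat.card Sᵐᵒᵖ = Nat.card S := Nat.card_congr opEquiv.symm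
    rw [e1, ← e2]; exact h2
  · intro u v
    have h7 := h6 (op u) (op v)
    constructor
    · intro h
      have h8 : ψ (op u) = ψ (op v) := op_injective h
      exact op_injective (h7.1 h8)
    · intro h
      have h8 : (MulHom.op φ) (op u) = (MulHom.op φ) (op v) := congrArg op h
      exact congrArg op (h7.2 h8)

/-! ### the congruence `L ∩ γ` -/

section RelL

variable {T : Type*} [Semigroup T]

/-- `a` and `b` are related by `L`-related idempotents. -/
def relL (a b : T) : Prop := ∃ e f : T, e * e = e ∧ f * f = f ∧ e * f = e ∧ f * e = f ∧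
  a = e * b ∧ b = f * a

theorem relL_refl (h : Regular T) (a : T) : relL a a := by
  obtain ⟨x, hx⟩ := h a
  have h1 : (a * x) * (a * x) = a * x := by rw [← mul_assoc, hx]
  exact ⟨a * x, a * x, h1, h1, h1, h1, hx.symm, hx.symm⟩

theorem relL_symm {a b : T} (h : relL a b) : relL b a := by
  obtain ⟨e, f, h1, h2, h3, h4, h5, h6⟩ := h
  exact ⟨f, e, h2, h1, h4, h3, h6, h5⟩

theorem pep (hc : IdemClosed T) {e f p : T} (he : e * e = e) (hp : p * p = p)
    (hfe : f * e = f) (hfp : f * p = p) : p * e * p = p := by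
  have h1 : f * (e * p) = p := by rw [← mul_assoc, hfe, hfp]
  have h2 := hc e p he hp
  calc p * e * p = (f * (e * p)) * (e * p) := by rw [h1, mul_assoc]
    _ = f * ((e * p) * (e * p)) := by rw [mul_assoc]
    _ = p := by rw [h2, h1]

theorem relL_trans (h : Regular T) (hc : IdemClosed T) {a b c : T} (h1 : relL a b)
    (h2 : relL b c) : relL a c := by
  obtain ⟨e, f, he, hf, hef, hfe, ha, hb⟩ := h1
  obtain ⟨g, k, hg, hk, hgk, hkg, hb', hcc⟩ := h2
  obtain ⟨x, hx⟩ := h b
  set p := b * x with hp
  have hpp : p * p = p := by rw [hp, ← mul_assoc, hx]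
  have hpb : p * b = b := hx
  have hfb : f * b = b := by rw [hb, ← mul_assoc, hf]
  have hgb : g * b = b := by rw [hb', ← mul_assoc, hg]
  have hfp : f * p = p := by rw [hp, ← mul_assoc, hfb]
  have hgp : g * p = p := by rw [hp, ← mul_assoc, hgb]
  have e1 : p * e * p = p := pep hc he hpp hfe hfp
  have e2 : p * k * p = p := pep hc hk hpp hgk hgp
  refine ⟨e * p, k * p, hc _ _ he hpp, hc _ _ hk hpp, ?_, ?_, ?_, ?_⟩
  · calc e * p * (k * p) = e * (p * k * p) := by simp only [mul_assoc]
      _ = e * p := by rw [e2]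
  · calc k * p * (e * p) = k * (p * e * p) := by simp only [mul_assoc]
      _ = k * p := by rw [e1]
  · calc a = e * (p * b) := by rw [hpb, ha]
      _ = e * (p * k * p) * b := by rw [e2]; exact (mul_assoc _ _ _).symm
      _ = e * p * (k * (p * b)) := by simp only [mul_assoc]
      _ = e * p * c := by rw [hpb, ← hcc]
  · calc c = k * (p * b) := by rw [hpb, hcc]
      _ = k * (p * e * p) * b := by rw [e1]; exact (mul_assoc _ _ _).symm
      _ = k * p * (e * (p * b)) := by simp only [mul_assoc]
      _ = k * p * a := by rw [hpb, ← ha]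

theorem geg (hr : IdemReg T) {e f g : T} (he : e * e = e) (hf : f * f = f) (hg : g * g = g)
    (hc : IdemClosed T) (hef : e * f = e) (hfe : f * e = f) : g * e * g * f = g * e := by
  have h1 := hr e g f he hg hf
  have h2 : e * g * f * e = e * g * e := by
    rw [← h1]
    calc e * g * e * f * e = e * g * (e * f) * e := by simp only [mul_assoc]
      _ = e * g * (e * e) := by rw [hef]; simp only [mul_assoc]
      _ = e * g * e := by rw [he]
  have h3 : e * g * f = e * g * e := by
    calc e * g * f = e * g * (f * e) := by rw [hfe]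
      _ = e * g * f * e := by simp only [mul_assoc]
      _ = e * g * e := h2
  calc g * e * g * f = g * (e * g * f) := by simp only [mul_assoc]
    _ = (g * e) * (g * e) := by rw [h3]; simp only [mul_assoc]
    _ = g * e := hc _ _ hg he

theorem relL_mul_left (h : Regular T) (hc : IdemClosed T) (hr : IdemReg T) (x : T) {a b : T}
    (h1 : relL a b) : relL (x * a) (x * b) := by
  obtain ⟨e, f, he, hf, hef, hfe, ha, hb⟩ := h1
  obtain ⟨y, hy⟩ := h x
  set g := y * x with hgd
  have hg : g * g = g := by
    rw [hgd, show y * x * (y * x) = y * (x * y * x) by simp only [mul_assoc], hy]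
  have hxg : x * g = x := by rw [hgd, ← mul_assoc, hy]
  have k1 := geg hr he hf hg hc hef hfe
  have k2 := geg hr hf he hg hc hfe hef
  have hfb : f * b = b := by rw [hb, ← mul_assoc, hf]
  have hea : e * a = a := by rw [ha, ← mul_assoc, he]
  refine ⟨x * e * y, x * f * y, ?_, ?_, ?_, ?_, ?_, ?_⟩
  · calc x * e * y * (x * e * y) = x * e * g * e * y := by rw [hgd]; simp only [mul_assoc]
      _ = (x * g) * e * g * e * y := by rw [hxg]
      _ = x * ((g * e) * (g * e)) * y := by simp only [mul_assoc]
      _ = (x * g) * e * y := by rw [hc _ _ hg he]; simp only [mul_assoc]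
      _ = x * e * y := by rw [hxg]
  · calc x * f * y * (x * f * y) = x * f * g * f * y := by rw [hgd]; simp only [mul_assoc]
      _ = (x * g) * f * g * f * y := by rw [hxg]
      _ = x * ((g * f) * (g * f)) * y := by simp only [mul_assoc]
      _ = (x * g) * f * y := by rw [hc _ _ hg hf]; simp only [mul_assoc]
      _ = x * f * y := by rw [hxg]
  · calc x * e * y * (x * f * y) = x * e * g * f * y := by rw [hgd]; simp only [mul_assoc]
      _ = (x * g) * e * g * f * y := by rw [hxg]
      _ = x * (g * e * g * f) * y := by simp only [mul_assoc]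
      _ = (x * g) * e * y := by rw [k1]; simp only [mul_assoc]
      _ = x * e * y := by rw [hxg]
  · calc x * f * y * (x * e * y) = x * f * g * e * y := by rw [hgd]; simp only [mul_assoc]
      _ = (x * g) * f * g * e * y := by rw [hxg]
      _ = x * (g * f * g * e) * y := by simp only [mul_assoc]
      _ = (x * g) * f * y := by rw [k2]; simp only [mul_assoc]
      _ = x * f * y := by rw [hxg]
  · calc x * a = (x * g) * e * b := by rw [ha, hxg, mul_assoc]
      _ = x * (g * e) * b := by simp only [mul_assoc]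
      _ = x * (g * e * g * f) * b := by rw [k1]
      _ = (x * g) * e * g * (f * b) := by simp only [mul_assoc]
      _ = x * e * g * b := by rw [hxg, hfb]
      _ = x * e * y * (x * b) := by rw [hgd]; simp only [mul_assoc]
  · calc x * b = (x * g) * f * a := by rw [hb, hxg, mul_assoc]
      _ = x * (g * f) * a := by simp only [mul_assoc]
      _ = x * (g * f * g * e) * a := by rw [k2]
      _ = (x * g) * f * g * (e * a) := by simp only [mul_assoc]
      _ = x * f * g * a := by rw [hxg, hea]
      _ = x * f * y * (x * a) := by rw [hgd]; simp only [mul_assoc]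

theorem relL_mul_right (x : T) {a b : T} (h1 : relL a b) : relL (a * x) (b * x) := by
  obtain ⟨e, f, he, hf, hef, hfe, ha, hb⟩ := h1
  exact ⟨e, f, he, hf, hef, hfe, by rw [← mul_assoc, ← ha], by rw [← mul_assoc, ← hb]⟩

/-- the congruence -/
def conL (h : Regular T) (hc : IdemClosed T) (hr : IdemReg T) : Con T where
  r := relL
  iseqv := ⟨relL_refl h, relL_symm, relL_trans h hc⟩
  mul' {_ b c _} h1 h2 := relL_trans h hc (relL_mul_right c h1) (relL_mul_left h hc hr b h2)

end RelL

/-! ### quotients of regular semigroups -/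

section Quot

variable {T U : Type*} [Semigroup T] [Semigroup U] (f : T →ₙ* U) (hf : Function.Surjective f)

include hf in
theorem map_regular (h : Regular T) : Regular U := by
  intro a
  obtain ⟨a, rfl⟩ := hf a
  obtain ⟨x, hx⟩ := h a
  exact ⟨f x, by rw [← map_mul, ← map_mul, hx]⟩

include hf in
/-- Lallement's lemma -/
theorem lift_idem (h : Regular T) {a : U} (ha : a * a = a) : ∃ e : T, e * e = e ∧ f e = a := by
  obtain ⟨a, rfl⟩ := hf a
  obtain ⟨x0, hx0⟩ := h (a * a)
  set x := x0 * (a * a) * x0 with hx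
  have h1 : (a * a) * x * (a * a) = a * a := by
    rw [hx, show (a * a) * (x0 * (a * a) * x0) * (a * a) =
      ((a * a) * x0 * (a * a)) * x0 * (a * a) by simp only [mul_assoc], hx0, hx0]
  have h2 : x * (a * a) * x = x := by
    rw [hx, show x0 * (a * a) * x0 * (a * a) * (x0 * (a * a) * x0) =
      x0 * (((a * a) * x0 * (a * a)) * x0 * (a * a)) * x0 by simp only [mul_assoc], hx0, hx0]
  refine ⟨a * x * a, ?_, ?_⟩
  · calc a * x * a * (a * x * a) = a * (x * (a * a) * x) * a := by simp only [mul_assoc]
      _ = a * x * a := by rw [h2]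
  · calc f (a * x * a) = (f a) * f x * (f a) := by rw [map_mul, map_mul]
      _ = (f a * f a) * f x * (f a * f a) := by rw [ha]
      _ = f ((a * a) * x * (a * a)) := by simp only [map_mul]
      _ = f a := by rw [h1, map_mul, ha]

include hf in
theorem map_closed (h : Regular T) (hc : IdemClosed T) : IdemClosed U := by
  intro a b ha hb
  obtain ⟨e, he, rfl⟩ := lift_idem f hf h ha
  obtain ⟨g, hg, rfl⟩ := lift_idem f hf h hb
  rw [← map_mul, ← map_mul, hc _ _ he hg]

end Quot

/-- **Regular bands.** -/
theorem regL_quot {T : Type u} [Semigroup T] (h : Regular T) (hc : IdemClosed T)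
    (hr : IdemReg T) : ∃ (U : Type u) (_ : Semigroup U), Regular U ∧ IdemClosed U ∧ IdemRR U ∧
      ∃ π : T →ₙ* U, ∀ a b, π a = π b ↔ relL a b := by
  let c := conL h hc hr
  let π : T →ₙ* c.Quotient := ⟨fun a => (a : c.Quotient), fun a b => rfl⟩
  have hπ : Function.Surjective π := by
    intro q
    induction q using Con.induction_on with
    | _ a => exact ⟨a, rfl⟩
  have hker : ∀ a b, π a = π b ↔ relL a b := fun a b => Con.eq c
  refine ⟨c.Quotient, inferInstance, map_regular π hπ h, map_closed π hπ h hc, ?_, π, hker⟩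
  intro a b ha hb
  obtain ⟨e, he, rfl⟩ := lift_idem π hπ h ha
  obtain ⟨f, hf, rfl⟩ := lift_idem π hπ h hb
  rw [← map_mul, ← map_mul, ← map_mul, hker]
  have h1 := hc _ _ he hf
  have h2 := hc _ _ hf he
  have h3 : (e * f * e) * (f * e) = e * f * e := by
    calc (e * f * e) * (f * e) = e * ((f * e) * (f * e)) := by simp only [mul_assoc]
      _ = e * f * e := by rw [h2, mul_assoc]
  have h4 : (f * e) * (e * f * e) = f * e := by
    calc (f * e) * (e * f * e) = f * (e * e) * f * e := by simp only [mul_assoc]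
      _ = (f * e) * (f * e) := by rw [he]; simp only [mul_assoc]
      _ = f * e := h2
  have h5 : (e * f * e) * (e * f * e) = e * f * e := by
    calc (e * f * e) * (e * f * e) = (e * f) * (e * e) * f * e := by simp only [mul_assoc]
      _ = (e * f) * (e * f) * e := by rw [he]; simp only [mul_assoc]
      _ = e * f * e := by rw [h1]
  exact ⟨e * f * e, f * e, h5, h2, h3, h4, h3.symm, h4.symm⟩

theorem relL_relR {T : Type*} [Semigroup T] {a b : T} (h1 : relL a b)
    (h2 : relL (op a) (op b)) : a = b := by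
  obtain ⟨e, f, he, hf, hef, hfe, ha, hb⟩ := h1
  obtain ⟨g, k, hg, hk, hgk, hkg, ha', hb'⟩ := h2
  have ha'' : a = b * unop g := congrArg unop ha'
  have hfb : f * b = b := by rw [hb, ← mul_assoc, hf]
  calc a = b * unop g := ha''
    _ = f * b * unop g := by rw [hfb]
    _ = f * a := by rw [mul_assoc, ← ha'']
    _ = b := hb.symm

/-! ### products -/

section Prod

variable {T U : Type*} [Semigroup T] [Semigroup U]

theorem prod_regular (h1 : Regular T) (h2 : Regular U) : Regular (T × U) := by
  rintro ⟨a, b⟩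
  obtain ⟨x, hx⟩ := h1 a
  obtain ⟨y, hy⟩ := h2 b
  exact ⟨(x, y), Prod.ext hx hy⟩

theorem prod_closed (h1 : IdemClosed T) (h2 : IdemClosed U) : IdemClosed (T × U) := by
  intro e f he hf
  exact Prod.ext (h1 _ _ (congrArg Prod.fst he) (congrArg Prod.fst hf))
    (h2 _ _ (congrArg Prod.snd he) (congrArg Prod.snd hf))

theorem prod_Reg (h1 : IdemReg T) (h2 : IdemReg U) : IdemReg (T × U) := by
  intro e f g he hf hg
  exact Prod.ext (h1 _ _ _ (congrArg Prod.fst he) (congrArg Prod.fst hf) (congrArg Prod.fst hg))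
    (h2 _ _ _ (congrArg Prod.snd he) (congrArg Prod.snd hf) (congrArg Prod.snd hg))

end Prod

theorem reg_embed {S : Type*} [Semigroup S] [Finite S] {T : Type u} [Semigroup T]
    (hreg : Regular T) (hc : IdemClosed T) (hr : IdemReg T) (φ : S →ₙ* T) :
    ∃ (T' : Type u) (_ : Semigroup T'), Finite T' ∧
      Nat.card T' ≤ bd (Nat.card S) * bd (Nat.card S) ∧
      Regular T' ∧ IdemClosed T' ∧ IdemReg T' ∧
      ∃ ψ : S →ₙ* T', ∀ u v, ψ u = ψ v ↔ φ u = φ v := by
  have hfin : Finite Sᵐᵒᵖ := Finite.of_equiv S opEquiv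
  obtain ⟨U, iU, u1, u2, u3, π, hπ⟩ := regL_quot hreg hc hr
  obtain ⟨W, iW, w1, w2, w3, ρ, hρ⟩ := regL_quot (op_regular hreg) (op_closed hc) (op_Reg hr)
  obtain ⟨A, iA, a1, a2, a3, a4, a5, α, hα⟩ := rr_embed u1 u2 u3 (π.comp φ)
  obtain ⟨B, iB, b1, b2, b3, b4, b5, β, hβ⟩ := rr_embed w1 w2 w3 (ρ.comp (MulHom.op φ))
  have hfin2 : Finite Bᵐᵒᵖ := Finite.of_equiv B opEquiv
  have hfin3 : Finite (A × Bᵐᵒᵖ) := inferInstance
  refine ⟨A × Bᵐᵒᵖ, inferInstance, hfin3, ?_, prod_regular a3 (op_regular b3),
    prod_closed a4 (op_closed b4), prod_Reg (RR_Reg a4 a5) (LR_Reg (op_closed b4) (op_LR b5)),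
    α.prod (dualHom β), ?_⟩
  · rw [Nat.card_prod]
    have e1 : Nat.card Bᵐᵒᵖ = Nat.card B := Nat.card_congr opEquiv.symm
    have e2 : Nat.card Sᵐᵒᵖ = Nat.card S := Nat.card_congr opEquiv.symm
    rw [e1]
    rw [e2] at b2
    exact Nat.mul_le_mul a2 b2
  · intro u v
    constructor
    · intro h
      have h1 : α u = α v := congrArg Prod.fst h
      have h2 : (dualHom β) u = (dualHom β) v := congrArg Prod.snd h
      have h3 : β (op u) = β (op v) := op_injective h2
      have h4 := (hπ _ _).1 ((hα u v).1 h1)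
      have h5 := (hρ _ _).1 ((hβ _ _).1 h3)
      exact relL_relR h4 h5
    · intro h
      have h1 : α u = α v := (hα u v).2 (by show π (φ u) = π (φ v); rw [h])
      have h3 : β (op u) = β (op v) := (hβ (op u) (op v)).2 (by
        show ρ (op (φ u)) = ρ (op (φ v)); rw [h])
      exact Prod.ext h1 (congrArg op h3)

end Pool.Agent.H.MP_830e61_lc
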