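import Pool.Agent.H.MP_830e61_lc.Defs

/-!
Algebraic core: a finite subsemigroup of a regular semigroup whose idempotents form a right
regular band embeds in a finite such semigroup of bounded size.
-/

namespace Pool.Agent.H.MP_830e61_lc

/-! ### Monoids `T` with a chosen inverse for each element -/

section Core

variable {T : Type*} [Monoid T]

/-- a choice of inverses -/
structure InvFun (T : Type*) [Monoid T] where
  inv : T → T
  h1 : ∀ a, a * inv a * a = a
  h2 : ∀ a, inv a * a * inv a = inv a

theorem exists_invFun (h : Regular T) : Nonempty (InvFun T) := by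
  choose x hx using h
  refine ⟨⟨fun a => x a * a * x a, fun a => ?_, fun a => ?_⟩⟩
  · have h := hx a
    calc a * (x a * a * x a) * a = (a * x a * a) * x a * a := by simp only [mul_assoc]
      _ = a := by rw [h, h]
  · have h := hx a
    have e1 : (x a * a * x a) * a * (x a * a * x a) = x a * ((a * x a * a) * x a * a) * x a := by
      simp only [mul_assoc]
    rw [e1, h, h]

variable (I : InvFun T) (hc : IdemClosed T) (hr : IdemRR T)

/-- the idempotent in the `L`-class of `a` -/
def InvFun.q (a : T) : T := I.inv a * a

theorem q_idem (a : T) : I.q a * I.q a = I.q a := by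
  unfold InvFun.q
  rw [← mul_assoc, I.h2]

theorem mul_q (a : T) : a * I.q a = a := by
  unfold InvFun.q
  rw [← mul_assoc, I.h1]

theorem r_idem (a : T) : (a * I.inv a) * (a * I.inv a) = a * I.inv a := by
  rw [← mul_assoc, I.h1]

include hr in
/-- `L`-related idempotents are equal -/
theorem eq_of_L {e f : T} (he : e * e = e) (hf : f * f = f) (h1 : e * f = e) (h2 : f * e = f) :
    e = f := by
  have := hr e f he hf
  rw [h1, he, h2] at this
  exact this

include hr in
theorem eq_q {e a x : T} (he : e * e = e) (h1 : a * e = a) (h2 : e = x * a) : e = I.q a := by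
  apply eq_of_L hr he (q_idem I a)
  · rw [h2, mul_assoc, mul_q]
  · unfold InvFun.q
    rw [mul_assoc, h1]

include hr in
theorem idem_mul_eq {g : T} (hg : g * g = g) (y : T) : g * y = y * (I.inv y * g * y) := by
  have h := hr (y * I.inv y) g (r_idem I y) hg
  calc g * y = g * (y * I.inv y * y) := by rw [I.h1]
    _ = (g * (y * I.inv y)) * y := by simp only [mul_assoc]
    _ = (y * I.inv y * g * (y * I.inv y)) * y := by rw [h]
    _ = y * (I.inv y * g * (y * I.inv y * y)) := by simp only [mul_assoc]
    _ = y * (I.inv y * g * y) := by rw [I.h1]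

include hr in
theorem conj_idem {g : T} (hg : g * g = g) (y : T) :
    (I.inv y * g * y) * (I.inv y * g * y) = I.inv y * g * y := by
  have h := idem_mul_eq I hr hg y
  calc (I.inv y * g * y) * (I.inv y * g * y) = I.inv y * g * (y * (I.inv y * g * y)) := by
        simp only [mul_assoc]
    _ = I.inv y * (g * g) * y := by rw [← h]; simp only [mul_assoc]
    _ = I.inv y * g * y := by rw [hg]

include hr in
/-- `q s * t = t * q (s * t)` -/
theorem q_mul (s t : T) : I.q s * t = t * I.q (s * t) := by
  have h := idem_mul_eq I hr (q_idem I s) t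
  have h3 : I.inv t * I.q s * t = I.q (s * t) := by
    apply eq_q I hr (x := I.inv t * I.inv s) (conj_idem I hr (q_idem I s) t)
    · rw [mul_assoc s t, ← h, ← mul_assoc, mul_q]
    · unfold InvFun.q; simp only [mul_assoc]
  rw [h, h3]

include hr hc in
/-- if `t` fixes `z` then so does its inverse -/
theorem inv_fix {t z : T} (h : t * z = z) : I.inv t * z = z := by
  set a := z * I.inv z with ha
  have haa : a * a = a := r_idem I z
  have hta : t * a = a := by rw [ha, ← mul_assoc, h]
  have hb : I.inv t * a = I.q t * a := by
    unfold InvFun.q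
    rw [mul_assoc, hta]
  have hbb : (I.inv t * a) * (I.inv t * a) = I.inv t * a := by
    rw [hb]; exact hc _ _ (q_idem I t) haa
  have htb : t * (I.inv t * a) = a := by
    rw [hb, ← mul_assoc, mul_q, hta]
  have hab : a = I.inv t * a := by
    apply eq_of_L hr haa hbb
    · calc a * (I.inv t * a) = t * (I.inv t * a) * (I.inv t * a) := by rw [htb]
        _ = t * ((I.inv t * a) * (I.inv t * a)) := by rw [mul_assoc]
        _ = a := by rw [hbb, htb]
    · rw [mul_assoc, haa]
  have haz : a * z = z := I.h1 z
  calc I.inv t * z = (I.inv t * a) * z := by rw [mul_assoc, haz]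
    _ = z := by rw [← hab, haz]

include hr hc in
/-- the key step -/
theorem key {t y z : T} (h1 : z = t * y) (h2 : t * z = z) : z = y * I.q z := by
  have h3 : I.inv t * z = z := inv_fix I hc hr h2
  have h4 : z = I.q t * y := by
    unfold InvFun.q
    rw [mul_assoc, ← h1, h3]
  have h5 := q_mul I hr t y
  rw [← h1] at h5
  rw [← h5]; exact h4

end Core

end Pool.Agent.H.MP_830e61_lc
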