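import Mathlib

/-!
Definitions for the hand-in on MP_830e61_lc.
-/

namespace Pool.Agent.H.MP_830e61_lc

/-- The semigroup `T` is regular. -/
def Regular (T : Type*) [Semigroup T] : Prop := ∀ a : T, ∃ x : T, a * x * a = a

/-- The idempotents of `T` are closed under multiplication. -/
def IdemClosed (T : Type*) [Semigroup T] : Prop :=
  ∀ e f : T, e * e = e → f * f = f → (e * f) * (e * f) = e * f

/-- The idempotents satisfy the identity `x y x = y x` of right regular bands. -/
def IdemRR (T : Type*) [Semigroup T] : Prop :=
  ∀ e f : T, e * e = e → f * f = f → e * f * e = f * e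

/-- The idempotents satisfy the identity `x y x = x y` of left regular bands. -/
def IdemLR (T : Type*) [Semigroup T] : Prop :=
  ∀ e f : T, e * e = e → f * f = f → e * f * e = e * f

/-- The idempotents satisfy the identity `x y x z x = x y z x` of regular bands. -/
def IdemReg (T : Type*) [Semigroup T] : Prop :=
  ∀ e f g : T, e * e = e → f * f = f → g * g = g → e * f * e * g * e = e * f * g * e

/-- Three varieties of bands. -/
inductive BandVar
  | rightRegular
  | leftRegular
  | regular

/-- The idempotents of `T` satisfy the defining identity of the variety. -/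
def BandVar.Idem (V : BandVar) (T : Type*) [Semigroup T] : Prop :=
  match V with
  | .rightRegular => IdemRR T
  | .leftRegular => IdemLR T
  | .regular => IdemReg T

/-- A class of semigroups. -/
abbrev SgClass := (T : Type) → Semigroup T → Prop

/-- The class `R_V` of finite (nonempty) regular semigroups whose idempotents form a subsemigroup
lying in the variety `V` of bands. -/
def RV (V : BandVar) : SgClass := fun T _ =>
  Finite T ∧ Nonempty T ∧ Regular T ∧ IdemClosed T ∧ V.Idem T

/-- Homomorphic images. -/
def opH (Φ : SgClass) : SgClass := fun T _ =>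
  ∃ (U : Type) (i : Semigroup U), Φ U i ∧ ∃ f : U →ₙ* T, Function.Surjective f

/-- Nonempty semigroups embeddable in members of the class. -/
def opS (Φ : SgClass) : SgClass := fun T _ =>
  Nonempty T ∧ ∃ (U : Type) (i : Semigroup U), Φ U i ∧ ∃ f : T →ₙ* U, Function.Injective f

/-- Finite direct products. -/
def opP (Φ : SgClass) : SgClass := fun T _ =>
  ∃ (k : ℕ) (U : Fin k → Type) (i : ∀ j, Semigroup (U j)), (∀ j, Φ (U j) (i j)) ∧
    ∃ f : T →ₙ* (∀ j, U j), Function.Bijective f

/-- The three basic operators. -/
inductive Op
  | H
  | S
  | P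

/-- The action of a basic operator on classes. -/
def Op.app : Op → SgClass → SgClass
  | .H => opH
  | .S => opS
  | .P => opP

/-- The Birkhoff operator given by a word `K = O_1 O_2 ... O_k`, with `O_k` applied first. -/
def birkhoff (K : List Op) (Φ : SgClass) : SgClass := K.foldr Op.app Φ

/-- `L` (a list of rows) is a multiplication table of the semigroup `T`. -/
def IsTable (L : List (List ℕ)) (T : Type) [Semigroup T] : Prop :=
  (∀ r ∈ L, r.length = L.length) ∧ ∃ e : Fin L.length ≃ T,
    ∀ i j : Fin L.length, (L.getD i []).getD j 0 = (e.symm (e i * e j)).val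

/-- Membership in the class is algorithmically decidable, semigroups being given by their
multiplication tables. -/
def Recursive (Φ : SgClass) : Prop :=
  ComputablePred fun L : List (List ℕ) => ∃ (T : Type) (i : Semigroup T), Φ T i ∧ IsTable L T

/-- The explicit bound: with `N = (n + 1) ^ (n + 1)`, `((N + 1) ^ N) ^ 2`. -/
def bound (n : ℕ) : ℕ := (((n + 1) ^ (n + 1) + 1) ^ ((n + 1) ^ (n + 1))) ^ 2

end Pool.Agent.H.MP_830e61_lc
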