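import Pool.Agent.H.MP_830e61_lc.Arith

/-!
Decidability of `R_V` and of `S(R_V)`.
-/

namespace Pool.Agent.H.MP_830e61_lc

/-- implication -/
def imp (a b : Fm) : Fm := .or (.not a) b

theorem imp_ev (L : List (List ℕ)) (v : List ℕ) (a b : Fm) :
    (imp a b).ev L v ↔ (a.ev L v → b.ev L v) := by
  unfold imp
  simp only [Fm.ev]
  tauto

/-- the identity as a formula -/
def idF (V : BandVar) (sz : ℕ → Tm) (o : ℕ → Tm → Tm → Tm) : Fm :=
  match V with
  | .rightRegular => .all (sz 0) (.all (sz 1) (imp (.eq (o 2 (.var 1) (.var 1)) (.var 1))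
      (imp (.eq (o 2 (.var 0) (.var 0)) (.var 0))
        (.eq (o 2 (o 2 (.var 1) (.var 0)) (.var 1)) (o 2 (.var 0) (.var 1))))))
  | .leftRegular => .all (sz 0) (.all (sz 1) (imp (.eq (o 2 (.var 1) (.var 1)) (.var 1))
      (imp (.eq (o 2 (.var 0) (.var 0)) (.var 0))
        (.eq (o 2 (o 2 (.var 1) (.var 0)) (.var 1)) (o 2 (.var 1) (.var 0))))))
  | .regular => .all (sz 0) (.all (sz 1) (.all (sz 2)
      (imp (.eq (o 3 (.var 2) (.var 2)) (.var 2))
      (imp (.eq (o 3 (.var 1) (.var 1)) (.var 1))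
      (imp (.eq (o 3 (.var 0) (.var 0)) (.var 0))
        (.eq (o 3 (o 3 (o 3 (o 3 (.var 2) (.var 1)) (.var 2)) (.var 0)) (.var 2))
          (o 3 (o 3 (o 3 (.var 2) (.var 1)) (.var 0)) (.var 2))))))))

/-- membership in `R_V` as a formula -/
def rvF (V : BandVar) (sz : ℕ → Tm) (o : ℕ → Tm → Tm → Tm) : Fm :=
  .and (.lt (.cst 0) (sz 0)) (
  .and (.all (sz 0) (.all (sz 1) (.lt (o 2 (.var 1) (.var 0)) (sz 2)))) (
  .and (.all (sz 0) (.all (sz 1) (.all (sz 2) (.eq (o 3 (o 3 (.var 2) (.var 1)) (.var 0))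
    (o 3 (.var 2) (o 3 (.var 1) (.var 0))))))) (
  .and (.all (sz 0) (.ex (sz 1) (.eq (o 2 (o 2 (.var 1) (.var 0)) (.var 1)) (.var 1)))) (
  .and (.all (sz 0) (.all (sz 1) (imp (.eq (o 2 (.var 1) (.var 1)) (.var 1))
      (imp (.eq (o 2 (.var 0) (.var 0)) (.var 0))
        (.eq (o 2 (o 2 (.var 1) (.var 0)) (o 2 (.var 1) (.var 0))) (o 2 (.var 1) (.var 0)))))))
    (idF V sz o)))))

section

variable {L : List (List ℕ)} {v : List ℕ} {sz : ℕ → Tm} {o : ℕ → Tm → Tm → Tm} {m : ℕ}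
  {O : ℕ → ℕ → ℕ}

theorem rvF_ev (V : BandVar)
    (hsz : ∀ w : List ℕ, (sz w.length).ev L (w ++ v) = m)
    (ho : ∀ (w : List ℕ) (a b : Tm), (o w.length a b).ev L (w ++ v) =
      O (a.ev L (w ++ v)) (b.ev L (w ++ v))) :
    (rvF V sz o).ev L v ↔ RVA V m O := by
  have s0 : (sz 0).ev L v = m := hsz []
  have s1 : ∀ x, (sz 1).ev L (x :: v) = m := fun x => hsz [x]
  have s2 : ∀ x y, (sz 2).ev L (x :: y :: v) = m := fun x y => hsz [x, y]
  have o2 : ∀ x y a b, (o 2 a b).ev L (x :: y :: v) =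
      O (a.ev L (x :: y :: v)) (b.ev L (x :: y :: v)) := fun x y a b => ho [x, y] a b
  have o3 : ∀ x y z a b, (o 3 a b).ev L (x :: y :: z :: v) =
      O (a.ev L (x :: y :: z :: v)) (b.ev L (x :: y :: z :: v)) :=
    fun x y z a b => ho [x, y, z] a b
  have v0 : ∀ x (w : List ℕ), (Tm.var 0).ev L (x :: w) = x := fun _ _ => rfl
  have v1 : ∀ x y (w : List ℕ), (Tm.var 1).ev L (x :: y :: w) = y := fun _ _ _ => rfl
  have v2 : ∀ x y z (w : List ℕ), (Tm.var 2).ev L (x :: y :: z :: w) = z := fun _ _ _ _ => rfl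
  unfold rvF RVA
  cases V <;>
  · unfold idF IdA
    simp only [Fm.ev, imp_ev, s0, s1, s2, o2, o3, v0, v1, v2]
    rfl

end

/-- the operation with digit code -/
def opC (k : ℕ) (a b : Tm) : Tm :=
  .mod (.div (.var (k + 1)) (.pow (.var (k + 2)) (.add (.mul a (.var (k + 2))) b))) (.var (k + 2))

/-- the map with digit code -/
def emC (k : ℕ) (a : Tm) : Tm := .mod (.div (.var k) (.pow (.var (k + 2)) a)) (.var (k + 2))

theorem var_ev (L : List (List ℕ)) (w v : List ℕ) (j : ℕ) :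
    (Tm.var (w.length + j)).ev L (w ++ v) = (Tm.var j).ev L v := by
  show (w ++ v).getD (w.length + j) 0 = v.getD j 0
  simp [List.getD_eq_getElem?_getD, List.getElem?_append_right]

theorem opC_ev (L : List (List ℕ)) (w : List ℕ) (a b : Tm) (m c d : ℕ) :
    (opC w.length a b).ev L (w ++ [d, c, m]) =
      dig m c (a.ev L (w ++ [d, c, m]) * m + b.ev L (w ++ [d, c, m])) := by
  unfold opC dig
  simp only [Tm.ev]
  have h1 : (w ++ [d, c, m]).getD (w.length + 1) 0 = c := var_ev L w [d, c, m] 1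
  have h2 : (w ++ [d, c, m]).getD (w.length + 2) 0 = m := var_ev L w [d, c, m] 2
  rw [h1, h2]

theorem emC_ev (L : List (List ℕ)) (w : List ℕ) (a : Tm) (m c d : ℕ) :
    (emC w.length a).ev L (w ++ [d, c, m]) = dig m d (a.ev L (w ++ [d, c, m])) := by
  unfold emC dig
  simp only [Tm.ev]
  have h1 : (w ++ [d, c, m]).getD w.length 0 = d := var_ev L w [d, c, m] 0
  have h2 : (w ++ [d, c, m]).getD (w.length + 2) 0 = m := var_ev L w [d, c, m] 2
  rw [h1, h2]

/-- inner formula: embedding -/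
def embF (V : BandVar) : Fm :=
  .and (rvF V (fun k => .var (k + 2)) opC) (
  .and (.all .len (.all .len (.eq (emC 2 (.tab (.var 1) (.var 0)))
    (opC 2 (emC 2 (.var 1)) (emC 2 (.var 0)))))) 
    (.all .len (.all .len (imp (.eq (emC 2 (.var 1)) (emC 2 (.var 0))) (.eq (.var 1) (.var 0))))))

theorem embF_ev (V : BandVar) (L : List (List ℕ)) (m c d : ℕ) :
    (embF V).ev L [d, c, m] ↔ EmbA V L.length (entry L) m c d := by
  have h1 := rvF_ev (L := L) (v := [d, c, m]) (sz := fun k => .var (k + 2)) (o := opC) (m := m)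
    (O := fun i j => dig m c (i * m + j)) V
    (fun w => var_ev L w [d, c, m] 2) (fun w a b => opC_ev L w a b m c d)
  have o2 : ∀ x y a b, (opC 2 a b).ev L (x :: y :: [d, c, m]) =
      dig m c (a.ev L (x :: y :: [d, c, m]) * m + b.ev L (x :: y :: [d, c, m])) :=
    fun x y a b => opC_ev L [x, y] a b m c d
  have e2 : ∀ x y a, (emC 2 a).ev L (x :: y :: [d, c, m]) =
      dig m d (a.ev L (x :: y :: [d, c, m])) :=
    fun x y a => emC_ev L [x, y] a m c d
  have v0 : ∀ x (w : List ℕ), (Tm.var 0).ev L (x :: w) = x := fun _ _ => rfl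
  have v1 : ∀ x y (w : List ℕ), (Tm.var 1).ev L (x :: y :: w) = y := fun _ _ _ => rfl
  have t2 : ∀ a b (w : List ℕ), (Tm.tab a b).ev L w = entry L (a.ev L w) (b.ev L w) :=
    fun _ _ _ => rfl
  have l2 : ∀ (w : List ℕ), (Tm.len).ev L w = L.length := fun _ => rfl
  unfold embF EmbA
  simp only [Fm.ev, imp_ev, o2, e2, v0, v1, t2, l2]
  rw [h1]

/-- the bound as a term -/
def bT : Tm :=
  .pow (.pow (.add (.pow (.add .len (.cst 1)) (.add .len (.cst 1))) (.cst 1))
    (.pow (.add .len (.cst 1)) (.add .len (.cst 1)))) (.cst 2)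

theorem bT_ev (L : List (List ℕ)) (v : List ℕ) : bT.ev L v = bound L.length := rfl

/-- rows have the right length -/
def rowF : Fm := .all .len (.eq (.row (.var 0)) .len)

theorem rowF_ev (L : List (List ℕ)) (v : List ℕ) :
    rowF.ev L v ↔ ∀ r ∈ L, r.length = L.length := by
  unfold rowF
  simp only [Fm.ev, Tm.ev]
  constructor
  · intro h r hr
    obtain ⟨i, hi, rfl⟩ := List.mem_iff_getElem.1 hr
    have := h i hi
    simp only [List.getD_cons_zero] at this
    rw [List.getD_eq_getElem _ _ hi] at this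
    exact this
  · intro h x hx
    simp only [List.getD_cons_zero]
    rw [List.getD_eq_getElem _ _ hx]
    exact h _ (List.getElem_mem hx)

/-- `t` is a semigroup operation on `{0, ..., n-1}` -/
def SgA (n : ℕ) (t : ℕ → ℕ → ℕ) : Prop :=
  0 < n ∧ (∀ i < n, ∀ j < n, t i j < n) ∧
  (∀ i < n, ∀ j < n, ∀ k < n, t (t i j) k = t i (t j k))

/-- formula for being a semigroup table -/
def sgF : Fm :=
  .and (.lt (.cst 0) .len) (
  .and (.all .len (.all .len (.lt (.tab (.var 1) (.var 0)) .len)))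
    (.all .len (.all .len (.all .len (.eq (.tab (.tab (.var 2) (.var 1)) (.var 0))
    (.tab (.var 2) (.tab (.var 1) (.var 0))))))))

theorem sgF_ev (L : List (List ℕ)) (v : List ℕ) : sgF.ev L v ↔ SgA L.length (entry L) := by
  unfold sgF SgA
  simp only [Fm.ev, Tm.ev, List.getD_cons_zero, List.getD_cons_succ]

/-- formula for `R_V` -/
def fR (V : BandVar) : Fm := .and rowF (rvF V (fun _ => .len) (fun _ => .tab))

theorem fR_ev (V : BandVar) (L : List (List ℕ)) :
    (fR V).ev L [] ↔ (∀ r ∈ L, r.length = L.length) ∧ RVA V L.length (entry L) := by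
  have h1 := rvF_ev (L := L) (v := []) (sz := fun _ => .len) (o := fun _ => .tab)
    (m := L.length) (O := entry L) V (fun w => rfl) (fun w a b => rfl)
  unfold fR
  simp only [Fm.ev]
  rw [rowF_ev, h1]

/-- formula for `S(R_V)` -/
def fS (V : BandVar) : Fm := .and rowF (.and sgF
  (.ex (.add bT (.cst 1)) (.ex (.pow (.var 0) (.mul (.var 0) (.var 0)))
    (.ex (.pow (.var 1) .len) (embF V)))))

theorem fS_ev (V : BandVar) (L : List (List ℕ)) :
    (fS V).ev L [] ↔ (∀ r ∈ L, r.length = L.length) ∧ SgA L.length (entry L) ∧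
      ∃ m < bound L.length + 1, ∃ c < m ^ (m * m), ∃ d < m ^ L.length,
        EmbA V L.length (entry L) m c d := by
  have hv0 : ∀ x (w : List ℕ), (Tm.var 0).ev L (x :: w) = x := fun _ _ => rfl
  have hv1 : ∀ x y (w : List ℕ), (Tm.var 1).ev L (x :: y :: w) = y := fun _ _ _ => rfl
  have hb : (Tm.add bT (.cst 1)).ev L [] = bound L.length + 1 := rfl
  have hp : ∀ a b (w : List ℕ), (Tm.pow a b).ev L w = (a.ev L w) ^ (b.ev L w) :=
    fun _ _ _ => rfl
  have hmu : ∀ a b (w : List ℕ), (Tm.mul a b).ev L w = (a.ev L w) * (b.ev L w) :=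
    fun _ _ _ => rfl
  have hl : ∀ (w : List ℕ), (Tm.len).ev L w = L.length := fun _ => rfl
  unfold fS
  simp only [Fm.ev, rowF_ev, sgF_ev, hb, hp, hmu, hl, hv0, hv1, embF_ev]

/-! ### semantic equivalences -/

theorem table_iff {L : List (List ℕ)} {T : Type} [Semigroup T] : IsTable L T ↔
    (∀ r ∈ L, r.length = L.length) ∧ ∃ e : Fin L.length ≃ T,
      ∀ i j : Fin L.length, entry L i.1 j.1 = (e.symm (e i * e j)).val := Iff.rfl

theorem rec_R (V : BandVar) : Recursive (RV V) := by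
  refine ((fR V).computable).of_eq ?_
  intro L
  rw [fR_ev]
  constructor
  · rintro ⟨h1, h2⟩
    have h2' := h2
    obtain ⟨hm, hlt, hassoc, -⟩ := h2'
    letI := finSg L.length (entry L) hlt hassoc
    exact ⟨FinT L.length, inferInstance, (RVA_iff V (finT _) (fun i j => rfl)).1 h2,
      h1, finT _, fun i j => rfl⟩
  · rintro ⟨T, i, h1, h2, e, he⟩
    exact ⟨h2, (RVA_iff V e he).2 h1⟩

theorem bd_eq (n : ℕ) : bd n * bd n = bound n := by
  unfold bd bound
  rw [← pow_succ', sq]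

theorem bd_le (n : ℕ) : bd n ≤ bound n := by
  rw [← bd_eq]
  exact Nat.le_mul_of_pos_left _ (Nat.pow_pos (Nat.succ_pos _))

universe u

/-- The bounded embedding theorem. -/
theorem embed (V : BandVar) {S : Type*} [Semigroup S] [Finite S] {T : Type u} [Semigroup T]
    (hreg : Regular T) (hc : IdemClosed T) (hr : V.Idem T) (φ : S →ₙ* T) :
    ∃ (T' : Type u) (_ : Semigroup T'), Finite T' ∧ Nat.card T' ≤ bound (Nat.card S) ∧
      Regular T' ∧ IdemClosed T' ∧ V.Idem T' ∧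
      ∃ ψ : S →ₙ* T', ∀ u v, ψ u = ψ v ↔ φ u = φ v := by
  cases V with
  | rightRegular =>
    obtain ⟨T', i, h1, h2, h3, h4, h5, h6⟩ := rr_embed hreg hc hr φ
    exact ⟨T', i, h1, h2.trans (bd_le _), h3, h4, h5, h6⟩
  | leftRegular =>
    obtain ⟨T', i, h1, h2, h3, h4, h5, h6⟩ := lr_embed hreg hc hr φ
    exact ⟨T', i, h1, h2.trans (bd_le _), h3, h4, h5, h6⟩
  | regular =>
    obtain ⟨T', i, h1, h2, h3, h4, h5, h6⟩ := reg_embed hreg hc hr φ
    exact ⟨T', i, h1, h2.trans (bd_eq _).le, h3, h4, h5, h6⟩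

theorem rec_S (V : BandVar) : Recursive (opS (RV V)) := by
  refine ((fS V).computable).of_eq ?_
  intro L
  rw [fS_ev]
  constructor
  · rintro ⟨h1, ⟨hn, hlt, hassoc⟩, m, -, c, -, d, -, h3⟩
    letI := finSg L.length (entry L) hlt hassoc
    obtain ⟨U, iU, hU, f, hf, hinj⟩ := of_embA h3
    refine ⟨FinT L.length, inferInstance, ⟨⟨⟨0, hn⟩⟩, U, iU, hU,
      ⟨fun i => f i.1, fun i j => hf _ i.2 _ j.2⟩, ?_⟩, h1, finT _, fun i j => rfl⟩
    intro i j h
    exact FinT.ext' (hinj _ i.2 _ j.2 h)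
  · rintro ⟨T, i, ⟨⟨t0⟩, U, iU, ⟨hUf, hUn, hU1, hU2, hU3⟩, φ, hφ⟩, h2, e, he⟩
    haveI : Finite T := Finite.of_equiv _ e
    have hn : 0 < L.length := Fin.pos (e.symm t0)
    have hlt : ∀ i < L.length, ∀ j < L.length, entry L i j < L.length := by
      intro i hi j hj
      have := he ⟨i, hi⟩ ⟨j, hj⟩
      show (L.getD i []).getD j 0 < _
      simp only at this
      rw [this]; exact (e.symm _).2
    have hm : ∀ i j : Fin L.length, e ⟨entry L i.1 j.1, hlt _ i.2 _ j.2⟩ = e i * e j := by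
      intro i j
      have : (⟨entry L i.1 j.1, hlt _ i.2 _ j.2⟩ : Fin L.length) = e.symm (e i * e j) :=
        Fin.ext (he i j)
      rw [this, Equiv.apply_symm_apply]
    refine ⟨h2, ⟨hn, hlt, ?_⟩, ?_⟩
    · intro i hi j hj k hk
      have := mul_assoc (e ⟨i, hi⟩) (e ⟨j, hj⟩) (e ⟨k, hk⟩)
      rw [← hm, ← hm, ← hm, ← hm, e.apply_eq_iff_eq, Fin.ext_iff] at this
      exact this
    · obtain ⟨T', iT', a1, a2, a3, a4, a5, ψ, hψ⟩ := embed V hU1 hU2 hU3 φ
      have hcard : Nat.card T = L.length := by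
        rw [← Nat.card_congr e, Nat.card_eq_fintype_card, Fintype.card_fin]
      let r : ℕ → Fin L.length := fun i => ⟨i % L.length, Nat.mod_lt _ hn⟩
      have hr : ∀ i (hi : i < L.length), r i = ⟨i, hi⟩ := fun i hi =>
        Fin.ext (Nat.mod_eq_of_lt hi)
      have hRV : RV V T' inferInstance := ⟨a1, ⟨ψ t0⟩, a3, a4, a5⟩
      obtain ⟨c, hc, d, hd, h⟩ := embA_of (n := L.length) (t := entry L) hlt hRV
        (fun i => ψ (e (r i))) (by
          intro i hi j hj
          rw [hr i hi, hr j hj, hr _ (hlt i hi j hj), ← map_mul, ← hm]) (by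
          intro i hi j hj h
          rw [hr i hi, hr j hj, hψ] at h
          have := e.injective (hφ h)
          exact Fin.ext_iff.1 this)
      exact ⟨Nat.card T', Nat.lt_succ_of_le (hcard ▸ a2), c, hc, d, hd, h⟩

end Pool.Agent.H.MP_830e61_lc
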