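import Pool.Agent.H.MP_830e61_lc.Final

/-!
Birkhoff operators applied to `R_V`.
-/

namespace Pool.Agent.H.MP_830e61_lc

theorem map_Idem (V : BandVar) {T U : Type*} [Semigroup T] [Semigroup U] (f : T →ₙ* U)
    (hf : Function.Surjective f) (h : Regular T) (hV : V.Idem T) : V.Idem U := by
  cases V with
  | rightRegular =>
    intro a b ha hb
    obtain ⟨e, he, rfl⟩ := lift_idem f hf h ha
    obtain ⟨g, hg, rfl⟩ := lift_idem f hf h hb
    simp only [← map_mul]
    rw [hV e g he hg]
  | leftRegular =>
    intro a b ha hb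
    obtain ⟨e, he, rfl⟩ := lift_idem f hf h ha
    obtain ⟨g, hg, rfl⟩ := lift_idem f hf h hb
    simp only [← map_mul]
    rw [hV e g he hg]
  | regular =>
    intro a b c ha hb hc
    obtain ⟨e, he, rfl⟩ := lift_idem f hf h ha
    obtain ⟨g, hg, rfl⟩ := lift_idem f hf h hb
    obtain ⟨k, hk, rfl⟩ := lift_idem f hf h hc
    simp only [← map_mul]
    rw [hV e g k he hg hk]

theorem RV_map (V : BandVar) {T U : Type} [Semigroup T] [Semigroup U] (f : T →ₙ* U)
    (hf : Function.Surjective f) (h : RV V T inferInstance) : RV V U inferInstance := by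
  obtain ⟨h1, ⟨t⟩, h3, h4, h5⟩ := h
  exact ⟨Finite.of_surjective f hf, ⟨f t⟩, map_regular f hf h3, map_closed f hf h3 h4,
    map_Idem V f hf h3 h5⟩

theorem RV_pi (V : BandVar) {k : ℕ} (U : Fin k → Type) (i : ∀ j, Semigroup (U j))
    (h : ∀ j, RV V (U j) (i j)) : RV V (∀ j, U j) inferInstance := by
  have h1 : ∀ j, Finite (U j) := fun j => (h j).1
  have h2 : ∀ j, Nonempty (U j) := fun j => (h j).2.1
  refine ⟨inferInstance, inferInstance, ?_, ?_, ?_⟩
  · intro a
    choose x hx using fun j => (h j).2.2.1 (a j)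
    exact ⟨x, funext hx⟩
  · intro e f he hf
    funext j
    exact (h j).2.2.2.1 _ _ (congrFun he j) (congrFun hf j)
  · cases V with
    | rightRegular =>
      intro e f he hf
      funext j
      exact (h j).2.2.2.2 _ _ (congrFun he j) (congrFun hf j)
    | leftRegular =>
      intro e f he hf
      funext j
      exact (h j).2.2.2.2 _ _ (congrFun he j) (congrFun hf j)
    | regular =>
      intro e f g he hf hg
      funext j
      exact (h j).2.2.2.2 _ _ _ (congrFun he j) (congrFun hf j) (congrFun hg j)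

theorem opP_of (Φ : SgClass) {T : Type} [i : Semigroup T] (h : Φ T i) : opP Φ T i := by
  refine ⟨1, fun _ => T, fun _ => i, fun _ => h, ⟨fun t _ => t, fun _ _ => rfl⟩, ?_, ?_⟩
  · intro a b h
    exact congrFun h 0
  · intro g
    refine ⟨g 0, ?_⟩
    funext j
    have hj : j = 0 := Subsingleton.elim _ _
    subst hj
    rfl

theorem bij_inv {T U : Type*} [Semigroup T] [Semigroup U] (f : T →ₙ* U)
    (hf : Function.Bijective f) : ∃ g : U →ₙ* T, Function.Bijective g :=
  ⟨((MulEquiv.ofBijective f hf).symm : U ≃* T).toMulHom,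
    (MulEquiv.ofBijective f hf).symm.bijective⟩

theorem opH_RV (V : BandVar) : opH (RV V) = RV V := by
  funext T i
  apply propext
  constructor
  · rintro ⟨U, j, hU, f, hf⟩
    exact RV_map V f hf hU
  · intro h
    exact ⟨T, i, h, MulHom.id T, fun x => ⟨x, rfl⟩⟩

theorem opP_RV (V : BandVar) : opP (RV V) = RV V := by
  funext T i
  apply propext
  constructor
  · rintro ⟨k, U, j, hU, f, hf⟩
    obtain ⟨g, hg⟩ := bij_inv f hf
    exact RV_map V g hg.2 (RV_pi V U j hU)
  · intro h
    exact opP_of _ h

theorem opS_S (V : BandVar) : opS (opS (RV V)) = opS (RV V) := by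
  funext T i
  apply propext
  constructor
  · rintro ⟨h0, U, j, ⟨-, W, k, hW, g, hg⟩, f, hf⟩
    exact ⟨h0, W, k, hW, g.comp f, hg.comp hf⟩
  · rintro ⟨h0, h⟩
    exact ⟨h0, T, i, ⟨h0, h⟩, MulHom.id T, fun _ _ h => h⟩

theorem opP_S (V : BandVar) : opP (opS (RV V)) = opS (RV V) := by
  funext T i
  apply propext
  constructor
  · rintro ⟨k, U, j, hU, f, hf⟩
    choose hne W iW hW g hg using hU
    obtain ⟨f', hf'⟩ := bij_inv f hf
    refine ⟨⟨f' fun j => (hne j).some⟩, ∀ j, W j, inferInstance, RV_pi V W iW hW,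
      ⟨fun t j => g j (f t j), ?_⟩, ?_⟩
    · intro a b
      funext j
      show g j (f (a * b) j) = g j (f a j) * g j (f b j)
      rw [map_mul f, Pi.mul_apply, map_mul (g j)]
    · intro a b h
      apply hf.1
      funext j
      exact hg j (congrFun h j)
  · intro h
    exact opP_of _ h

theorem birkhoff_noS (V : BandVar) (K : List Op) (hK : Op.S ∉ K) :
    birkhoff K (RV V) = RV V := by
  induction K with
  | nil => rfl
  | cons O K ih =>
    have h1 := ih fun h => hK (List.mem_cons_of_mem _ h)
    show O.app (birkhoff K (RV V)) = RV V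
    rw [h1]
    cases O with
    | H => exact opH_RV V
    | S => exact absurd List.mem_cons_self hK
    | P => exact opP_RV V

theorem birkhoff_S (V : BandVar) (K : List Op) (hS : Op.S ∈ K)
    (hK : ∀ A B, K = A ++ Op.H :: B → Op.S ∉ B) : birkhoff K (RV V) = opS (RV V) := by
  induction K with
  | nil => exact absurd hS List.not_mem_nil
  | cons O K ih =>
    have hK' : ∀ A B, K = A ++ Op.H :: B → Op.S ∉ B := fun A B h => hK (O :: A) B (by rw [h]; rfl)
    show O.app (birkhoff K (RV V)) = opS (RV V)
    by_cases hSK : Op.S ∈ K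
    · rw [ih hSK hK']
      cases O with
      | H => exact absurd hSK (hK [] K rfl)
      | S => exact opS_S V
      | P => exact opP_S V
    · rw [birkhoff_noS V K hSK]
      have hO : O = Op.S := by
        rcases List.mem_cons.1 hS with h | h
        · exact h.symm
        · exact absurd h hSK
      subst hO
      rfl

/-- all Birkhoff operators in which no `H` is applied after an `S` -/
theorem main (V : BandVar) (K : List Op) (hK : ∀ A B, K = A ++ Op.H :: B → Op.S ∉ B) :
    Recursive (birkhoff K (RV V)) := by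
  by_cases hS : Op.S ∈ K
  · rw [birkhoff_S V K hS hK]; exact rec_S V
  · rw [birkhoff_noS V K hS]; exact rec_R V

end Pool.Agent.H.MP_830e61_lc
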