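import Pool.Agent.H.MP_830e61_lc.Core

/-!
The truncated transformation semigroup.
-/

namespace Pool.Agent.H.MP_830e61_lc

/-! ### regular elements of a semigroup whose idempotents are closed -/

section RegPart

variable {Q : Type*} [Semigroup Q]

/-- the subsemigroup of regular elements -/
def regSub (hc : IdemClosed Q) : Subsemigroup Q where
  carrier := {p | ∃ q, p * q * p = p}
  mul_mem' := by
    rintro a b ⟨x, hx⟩ ⟨y, hy⟩
    refine ⟨y * x, ?_⟩
    have e1 : (x * a) * (x * a) = x * a := by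
      rw [show (x * a) * (x * a) = x * (a * x * a) by simp only [mul_assoc], hx]
    have e2 : (b * y) * (b * y) = b * y := by
      rw [show (b * y) * (b * y) = (b * y * b) * y by simp only [mul_assoc], hy]
    have e3 := hc _ _ e1 e2
    calc a * b * (y * x) * (a * b) = a * (b * y) * (x * a) * b := by simp only [mul_assoc]
      _ = (a * x * a) * (b * y) * (x * a) * (b * y * b) := by rw [hx, hy]
      _ = a * ((x * a) * (b * y) * ((x * a) * (b * y))) * b := by simp only [mul_assoc]
      _ = a * ((x * a) * (b * y)) * b := by rw [e3]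
      _ = (a * x * a) * (b * y * b) := by simp only [mul_assoc]
      _ = a * b := by rw [hx, hy]

theorem regSub_regular (hc : IdemClosed Q) : Regular (regSub hc) := by
  rintro ⟨a, x, hx⟩
  have h2 : (x * a * x) * a * (x * a * x) = x * a * x := by
    have e1 : (x * a * x) * a * (x * a * x) = x * ((a * x * a) * x * a) * x := by
      simp only [mul_assoc]
    rw [e1, hx, hx]
  refine ⟨⟨x * a * x, a, h2⟩, ?_⟩
  apply Subtype.ext
  show a * (x * a * x) * a = a
  calc a * (x * a * x) * a = (a * x * a) * x * a := by simp only [mul_assoc]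
    _ = a := by rw [hx, hx]

theorem sub_idemClosed (hc : IdemClosed Q) (R : Subsemigroup Q) : IdemClosed R := by
  intro e f he hf
  apply Subtype.ext
  exact hc e.1 f.1 (congrArg Subtype.val he) (congrArg Subtype.val hf)

theorem sub_idemRR (hc : IdemRR Q) (R : Subsemigroup Q) : IdemRR R := by
  intro e f he hf
  apply Subtype.ext
  exact hc e.1 f.1 (congrArg Subtype.val he) (congrArg Subtype.val hf)

end RegPart

/-- partial maps of a set -/
def PMap (Y : Type*) := Y → Option Y

instance (Y : Type*) : Semigroup (PMap Y) where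
  mul p q := fun y => (q y).bind p
  mul_assoc p q r := by
    funext y
    show (r y).bind (fun y => (q y).bind p) = ((r y).bind q).bind p
    cases r y <;> rfl

theorem PMap.mul_apply {Y : Type*} (p q : PMap Y) (y : Y) : (p * q) y = (q y).bind p := rfl

section Trunc

variable {S : Type*} [Semigroup S] {T : Type*} [Monoid T] (I : InvFun T) (hc : IdemClosed T)
  (hr : IdemRR T) (φ : S →ₙ* T)

/-- the monoid generated by the idempotents `q (φ s)` -/
def Bm : Submonoid T := Submonoid.closure (Set.range fun s => I.q (φ s))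

include hc in
theorem B_idem {b : T} (hb : b ∈ Bm I φ) : b * b = b := by
  induction hb using Submonoid.closure_induction with
  | mem x hx => obtain ⟨s, rfl⟩ := hx; exact q_idem I _
  | one => simp
  | mul x y _ _ hx hy => exact hc _ _ hx hy

theorem q_mem (s : S) : I.q (φ s) ∈ Bm I φ := Submonoid.subset_closure ⟨s, rfl⟩

/-- the finite set on which we act -/
def Yset : Set T := {y | y ∈ Bm I φ ∨ ∃ s, ∃ b ∈ Bm I φ, y = φ s * b}

theorem one_mem_Y : (1 : T) ∈ Yset I φ := Or.inl (one_mem _)

theorem mul_B_mem {y b : T} (hy : y ∈ Yset I φ) (hb : b ∈ Bm I φ) : y * b ∈ Yset I φ := by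
  rcases hy with hy | ⟨s, c, hcm, rfl⟩
  · exact Or.inl (mul_mem hy hb)
  · exact Or.inr ⟨s, c * b, mul_mem hcm hb, mul_assoc _ _ _⟩

theorem phi_mul_mem {y : T} (u : S) (hy : y ∈ Yset I φ) : φ u * y ∈ Yset I φ := by
  rcases hy with hy | ⟨s, c, hcm, rfl⟩
  · exact Or.inr ⟨u, y, hy, rfl⟩
  · exact Or.inr ⟨u * s, c, hcm, by rw [map_mul, mul_assoc]⟩

include hr in
theorem q_mul_mem {y : T} (u : S) (hy : y ∈ Yset I φ) : I.q (φ u) * y ∈ Yset I φ := by
  rcases hy with hy | ⟨s, c, hcm, rfl⟩
  · exact Or.inl (mul_mem (q_mem I φ u) hy)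
  · refine Or.inr ⟨s, I.q (φ (u * s)) * c, mul_mem (q_mem I φ _) hcm, ?_⟩
    rw [← mul_assoc, q_mul I hr, map_mul, mul_assoc]

include hr hc in
/-- the idempotent in the `L`-class of an element of `Y` lies in `B` -/
theorem q_mem_of_Y {y : T} (hy : y ∈ Yset I φ) : I.q y ∈ Bm I φ := by
  rcases hy with hy | ⟨s, c, hcm, rfl⟩
  · have hi := B_idem I hc φ hy
    have : y = I.q y := eq_q I hr (x := 1) hi hi (by simp)
    rw [← this]; exact hy
  · have hci := B_idem I hc φ hcm
    have hqi := q_idem I (φ s)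
    have h1 : I.q (φ s) * c = I.q (φ s * c) := by
      apply eq_q I hr (x := I.inv (φ s)) (hc _ _ hqi hci)
      · have h := hr c (I.q (φ s)) hci hqi
        calc φ s * c * (I.q (φ s) * c) = φ s * (c * I.q (φ s) * c) := by simp only [mul_assoc]
          _ = (φ s * I.q (φ s)) * c := by rw [h]; simp only [mul_assoc]
          _ = φ s * c := by rw [mul_q]
      · unfold InvFun.q; simp only [mul_assoc]
    rw [← h1]
    exact mul_mem (q_mem I φ s) hcm

/-- the underlying semigroup of partial maps given by left multiplications, equivariant under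
right multiplication by `B` -/
def Qs : Subsemigroup (PMap (Yset I φ)) where
  carrier := {p | (∃ t : T, ∀ y z : Yset I φ, p y = some z → z.1 = t * y.1) ∧
    ∀ (y z y' z' : Yset I φ) (b : T), b ∈ Bm I φ → p y = some z → y'.1 = y.1 * b →
      z'.1 = z.1 * b → p y' = some z'}
  mul_mem' := by
    rintro p q ⟨⟨t, ht⟩, hp⟩ ⟨⟨u, hu⟩, hq⟩
    refine ⟨⟨t * u, ?_⟩, ?_⟩
    · intro y z h
      rw [PMap.mul_apply, Option.bind_eq_some_iff] at h
      obtain ⟨w, h1, h2⟩ := h
      rw [ht w z h2, hu y w h1, mul_assoc]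
    · intro y z y' z' b hb h hy hz
      rw [PMap.mul_apply, Option.bind_eq_some_iff] at h ⊢
      obtain ⟨w, h1, h2⟩ := h
      refine ⟨⟨w.1 * b, mul_B_mem I φ w.2 hb⟩, hq y w _ _ b hb h1 hy rfl, ?_⟩
      exact hp w z _ _ b hb h2 rfl hz

include hr hc in
theorem idem_apply {p : Qs I φ} (hp : p * p = p) {y z : Yset I φ} (h : p.1 y = some z) :
    p.1 z = some z ∧ z.1 = y.1 * I.q z.1 ∧ I.q z.1 ∈ Bm I φ := by
  have h1 : p.1 z = some z := by
    have h2 : (p.1 * p.1) y = p.1 y := congrFun (congrArg Subtype.val hp) y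
    rw [PMap.mul_apply, h] at h2
    exact h2
  obtain ⟨t, ht⟩ := p.2.1
  exact ⟨h1, key I hc hr (ht y z h) (ht z z h1).symm, q_mem_of_Y I hc hr φ z.2⟩

include hr hc in
theorem fix_step {e f : Qs I φ} (he : e * e = e) {y z : Yset I φ}
    (h : e.1 y = some z) (hf : f.1 y = some y) : f.1 z = some z := by
  obtain ⟨_, h2, h3⟩ := idem_apply I hc hr φ he h
  exact f.2.2 y y z z (I.q z.1) h3 hf h2 h2

include hr hc in
theorem Qs_closed : IdemClosed (Qs I φ) := by
  intro e f he hf
  apply Subtype.ext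
  funext x
  show ((e.1 * f.1) * (e.1 * f.1)) x = (e.1 * f.1) x
  rw [PMap.mul_apply (e.1 * f.1) (e.1 * f.1) x]
  cases h1 : (e.1 * f.1) x with
  | none => rfl
  | some z =>
    show (e.1 * f.1) z = some z
    rw [PMap.mul_apply, Option.bind_eq_some_iff] at h1
    obtain ⟨y, hy1, hy2⟩ := h1
    have hfy : f.1 y = some y := (idem_apply I hc hr φ hf hy1).1
    have hfz := fix_step I hc hr φ he hy2 hfy
    rw [PMap.mul_apply, hfz]
    exact (idem_apply I hc hr φ he hy2).1

include hr hc in
theorem Qs_RR : IdemRR (Qs I φ) := by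
  intro e f he hf
  apply Subtype.ext
  funext x
  show ((e.1 * f.1) * e.1) x = (f.1 * e.1) x
  rw [mul_assoc, PMap.mul_apply]
  cases h1 : (f.1 * e.1) x with
  | none => rfl
  | some z =>
    show e.1 z = some z
    rw [PMap.mul_apply, Option.bind_eq_some_iff] at h1
    obtain ⟨y, hy1, hy2⟩ := h1
    have hey : e.1 y = some y := (idem_apply I hc hr φ he hy1).1
    exact fix_step I hc hr φ hf hy2 hey

/-- left multiplication by `φ u` -/
def lam (u : S) : Qs I φ :=
  ⟨fun y => some ⟨φ u * y.1, phi_mul_mem I φ u y.2⟩, ⟨φ u, by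
    intro y z h; rw [Option.some.injEq] at h; rw [← h]⟩, by
    intro y z y' z' b hb h hy hz
    rw [Option.some.injEq] at h ⊢
    apply Subtype.ext
    have hz2 : z.1 = φ u * y.1 := by rw [← h]
    show φ u * y'.1 = z'.1
    rw [hz, hz2, hy, mul_assoc]⟩

open Classical in
/-- the partial inverse of `lam u` -/
noncomputable def mu (u : S) : Qs I φ :=
  ⟨fun y => if h : ∃ z : Yset I φ, y.1 = φ u * z.1 then some ⟨I.inv (φ u) * y.1, by
      obtain ⟨z, hz⟩ := h
      rw [hz, ← mul_assoc]
      exact q_mul_mem I hr φ u z.2⟩ else none, ⟨I.inv (φ u), by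
    intro y z h
    dsimp only at h
    split_ifs at h with h1
    rw [Option.some.injEq] at h; rw [← h]⟩, by
    intro y z y' z' b hb h hy hz
    dsimp only at h ⊢
    split_ifs at h with h1
    rw [Option.some.injEq] at h
    obtain ⟨w, hw⟩ := h1
    rw [dif_pos ⟨⟨w.1 * b, mul_B_mem I φ w.2 hb⟩, by rw [hy, hw, mul_assoc]⟩]
    rw [Option.some.injEq]
    apply Subtype.ext
    have hz2 : z.1 = I.inv (φ u) * y.1 := by rw [← h]
    show I.inv (φ u) * y'.1 = z'.1
    rw [hz, hz2, hy, mul_assoc]⟩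

theorem lam_mu_lam (u : S) : lam I φ u * mu I hr φ u * lam I φ u = lam I φ u := by
  apply Subtype.ext
  funext y
  show (((lam I φ u).1 * (mu I hr φ u).1) * (lam I φ u).1) y = (lam I φ u).1 y
  rw [PMap.mul_apply]
  show ((lam I φ u).1 * (mu I hr φ u).1) ⟨φ u * y.1, phi_mul_mem I φ u y.2⟩ = _
  rw [PMap.mul_apply]
  have hm : I.inv (φ u) * (φ u * y.1) ∈ Yset I φ := by
    rw [← mul_assoc]; exact q_mul_mem I hr φ u y.2
  have : (mu I hr φ u).1 ⟨φ u * y.1, phi_mul_mem I φ u y.2⟩ =
      some (⟨I.inv (φ u) * (φ u * y.1), hm⟩ : Yset I φ) := by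
    unfold mu
    dsimp only
    rw [dif_pos ⟨y, rfl⟩]
  rw [this]
  show some _ = some _
  congr 1
  apply Subtype.ext
  show φ u * (I.inv (φ u) * (φ u * y.1)) = φ u * y.1
  rw [← mul_assoc, ← mul_assoc, I.h1]

theorem lam_mul (u v : S) : lam I φ (u * v) = lam I φ u * lam I φ v := by
  apply Subtype.ext
  funext y
  show some _ = some _
  congr 1
  apply Subtype.ext
  show φ (u * v) * y.1 = φ u * (φ v * y.1)
  rw [map_mul, mul_assoc]

theorem lam_inj (u v : S) : lam I φ u = lam I φ v ↔ φ u = φ v := by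
  constructor
  · intro h
    have h1 : (lam I φ u).1 ⟨1, one_mem_Y I φ⟩ = (lam I φ v).1 ⟨1, one_mem_Y I φ⟩ := by rw [h]
    have h2 := congrArg Subtype.val (Option.some.inj h1)
    simpa using h2
  · intro h
    apply Subtype.ext
    funext y
    show some _ = some _
    congr 1
    apply Subtype.ext
    show φ u * y.1 = φ v * y.1
    rw [h]

end Trunc

end Pool.Agent.H.MP_830e61_lc
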